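import Pool.Agent.Lib.DI.F4.Bas

/-!
# Theorem DI, parts F4 (Honda integrality) and F6 (the final contradiction): statements

Author helper12 (notes 4042 F6, 4044).  Every `S_X` is a `Prop` with a complete proof in its
docstring; it is to be proved as `theorem tX : (hypotheses, in the order named) → S_X`.  Definitions
and tools: `Defs.lean` (composition `cs f g = f ∘ g` with `cs_add`, `cs_mul`, `cs_cs`, `coeff_cs`,
`d_cs` (chain rule), `map_cs`, ..; `w_eq`, `P_eq`, `P_om`, `lg`, `d_lg`, `Tof`, `lg_Tof`, `Tof_lg`, `eq_Tof`,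
`map_lg`; `C_two`, `ss_rr`, `v1_u2`, `u2_inv`, `FF_u2`, `GG_u2`, ..), `Bas.lean` (closure properties
`In.add`, `In.cs`, `In.inv`, `inM_iff`, `InM.mul`, ..).  `L⟦X⟧` is a domain for a field `L`.
`derivative.ext` : equal derivatives and equal constant coefficients (characteristic `0`).
-/

set_option autoImplicit false

namespace DI.F4

open PowerSeries

/-! ## A. The curve in the coordinates `T`, `W` -/

/-- **WSol**.  `T³ w(T)` is the only solution `W` of `WEq T W` with constant coefficient `0`.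
Proof.  It is a solution: apply `cs · T` to `w_eq R` and multiply by `T³`.  Uniqueness: the difference
of the equations for `Y`, `Z` is `(Y - Z) * (1 - T + T² + 2 T (Y + Z) + Y² + Y Z + Z²) = 0`, and the
second factor has the constant coefficient `1`, so it is a unit (`isUnit_iff_constantCoeff`). -/
def S_WSol : Prop := ∀ (R : Type) [CommRing R] (T : R⟦X⟧), constantCoeff T = 0 →
  WEq T (T ^ 3 * cs (w R) T) ∧
  ∀ Y Z : R⟦X⟧, constantCoeff Y = 0 → constantCoeff Z = 0 → WEq T Y → WEq T Z → Y = Z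

/-- **WDer**.  Proof.  The derivative of `w_eq` is (`w' = derivative R (w R)`)
`w' = w + X w' - 2 X w - X² w' - (8 X³ w² + 4 X⁴ w w') - (6 X⁵ w³ + 3 X⁶ w² w')`, i.e. (`P_eq`)
`w' P = w - 2 X w - 8 X³ w² - 6 X⁵ w³`.  Hence `(2 w + X w') P = 2 w P + X (w' P) = w (2 - X)`
(`ring` after `P_eq`).  Multiply by `om` (`P_om`). -/
def S_WDer : Prop := ∀ (R : Type) [CommRing R],
  2 * w R + X * derivative R (w R) = w R * (2 - X) * om R

/-- **Star** (from WDer).  The invariant differential: `d(T/W) / (2y + x) = om(T) dT`.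
Proof.  `W' = 3 T² T' w(T) + T³ w'(T) T'` (`d_cs`), so
`T' W - T W' = - T' T³ (2 w + X w')(T) = - T' T³ (w (2 - X) om)(T) = (T - 2) W om(T) T'`, where `(f)(T)` is
`cs f T`. -/
def S_Star : Prop := ∀ (R : Type) [CommRing R] (T : R⟦X⟧), constantCoeff T = 0 →
  derivative R T * (T ^ 3 * cs (w R) T) - T * derivative R (T ^ 3 * cs (w R) T) =
    (T - 2) * (T ^ 3 * cs (w R) T) * (cs (om R) T * derivative R T)

/-- **GEq** (from WSol).  The point `(T', W') = (FF, GG)` is on the curve.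
Proof.  `f = X w u1 R1 = FF u2`, `h = X³ v1 R1 w² = GG u2` (`FF_u2`, `GG_u2`).  Multiply `WEq` by `u2³` (not a
zero divisor, `u2_inv`): the claim is `h u2² = f³ + f h u2 - f² h - 2 f h² - h³`.  By the definition of `u2`
`f³ - f² h - 2 f h² - h³ = X³ R1³ w³ u2`, and `f h u2 = X⁴ w³ u1 v1 R1² u2`; the sum is
`X³ R1 w² u2 (w R1² + X w u1 v1 R1) = X³ R1 w² u2 (v1 u2) = h u2²` (`v1_u2`).  The second claim: uniqueness in
WSol (`FF_const`, `GG_const`). -/
def S_GEq : Prop := ∀ (L : Type) [Field L] [CharZero L] (pi : L), pi * (1 - pi) = 2 →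
  WEq (FF pi) (GG pi) ∧ GG pi = FF pi ^ 3 * cs (w L) (FF pi)

/-- **FDer** (from WDer).  The differential is multiplied by `pi`.
Proof.  `N = u1`, `M = X² w v1`, `' = derivative L`.
(i) `N' M - N M' = - C pi * X * rr * (2 w + X w')`: compute the derivatives (`derivative (C pi) = 0`);
after that both sides are polynomials in `C pi, X, w, w'`, and the difference is a multiple of
`C_two` (`2 (1 - pi) = pi (1 - pi)²`).
(ii) `FF M = GG N` (multiply by `u2`: `f M = X w u1 R1 X² w v1 = h N`).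
(iii) `(FF' GG - FF GG') M² = GG² (N' M - N M')`: from the derivative `FF' M + FF M' = GG' N + GG N'` of
(ii): `FF' GG M² = GG M (GG' N + GG N' - FF M')`, and `FF GG' M² = GG GG' N M`, `FF M = GG N`.
(iv) `2 R1 + X u1 v1 = (2 - X) rr` (`ss_rr`), so by `v1_u2`
`(2 u2 - f) v1 = 2 (w R1² + X w u1 v1 R1) - X w u1 R1 v1 = w R1 (2 R1 + X u1 v1) = w R1 rr (2 - X)`, hence
(multiply with `X⁴ w² v1`, divide by `u2`) `(2 - FF) M² = GG X rr w (2 - X)`.
(v) With WDer: `(FF' GG - FF GG') M² = - C pi GG² X rr w (2 - X) om = C pi (FF - 2) GG om M²`.  Cancel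
`M² ≠ 0` (`w` and `v1` have the constant coefficients `1` and `pi² ≠ 0`). -/
def S_FDer : Prop := ∀ (L : Type) [Field L] [CharZero L] (pi : L), pi * (1 - pi) = 2 →
  derivative L (FF pi) * GG pi - FF pi * derivative L (GG pi) =
    C pi * ((FF pi - 2) * GG pi * om L)

/-- **FLog** (from Star, GEq, FDer).  Proof.  Star for `T = FF` and GEq (second claim) give
`FF' GG - FF GG' = (FF - 2) GG (om(FF) FF')`.  Compare with FDer and cancel `(FF - 2) GG ≠ 0` (`FF - 2` has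
the constant coefficient `-2`; `GG u2 = X³ v1 R1 w²` is not zero, the constant coefficients of `v1`, `R1`,
`w` are `pi²`, `pi`, `1`): `om(FF) FF' = C pi * om`.  So `lg(FF)` and `C pi * lg` have the same derivative
(`d_cs`, `d_lg`) and the constant coefficient `0`. -/
def S_FLog : Prop := ∀ (L : Type) [Field L] [CharZero L] (pi : L), pi * (1 - pi) = 2 →
  cs (lg L) (FF pi) = C pi * lg L

/-- **FInt**.  `T'` is integral and congruent to `T²` modulo `pi`.  Proof.  All of `w, u1, v1, rr, ss, R1, u2` are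
in `O⟦X⟧`, and `u2` has the constant coefficient `1` (`In.inv`).  Put `p = C pi`, `W = w L` and
`S = X W + (p-1) X^2 - p X^2 W + (p-1) X^3 W + (2-p) X^3 W^2 + X^4 W + (p-2) X^4 W^2 + (1-p) X^5 W^2 +
(1-3p) X^6 W^2 + (2p-3) X^6 W^3 + (2-2p) X^7 W^3 - (p+1) X^7 W^4 + (1-2p) X^8 W^3 + (2p-1) X^8 W^4 +
(1-p) X^9 W^4 + (2-p) X^9 W^5 + (4-p) X^10 W^4 + p X^10 W^5 + (2+3p) X^12 W^5 + X^12 W^6 + (2p-2) X^14 W^6`.
Then, modulo the relations `kap = W (1 - X)` (`kap_eq`) and `p (1 - p) = 2` (`C_two`),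
`f - X² u2 = p S`, where `f = X W u1 R1`.  (Exactly: with `kap` unfolded and
`E = 1 + X W - X² W - 2 X⁴ W² - X⁶ W³ - W` one has
`f - X² u2 = p S + X² (kap + X W) E` in `ℤ[p]/(p² - p + 2)[X, W]`.)  So `FF - X² = p S u2⁻¹`. -/
def S_FInt : Prop := ∀ (L : Type) [Field L] [CharZero L] (O : Subring L) (pi : L), OK O pi →
  In O (FF pi) ∧ InM O pi (FF pi - X ^ 2)

/-! ## B. Honda's argument -/

/-- **PowD**.  Proof.  `A = B + C pi * D`, `In O D` (`inM_iff`).  By the binomial theorem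
`A^d - B^d = ∑_(k=1)^d (d choose k) B^(d-k) (C pi)^k D^k`, and `k (d choose k) = d (d-1 choose k-1)`, so
`(d choose k) pi^k = d pi (d-1 choose k-1) (pi^(k-1) / k)`.  `pi^(k-1) / k ∈ O`: `k = 2^a m` with `m` odd,
`a ≤ k - 1` (`a < 2^a ≤ k`), `2 = pi (1 - pi)`: it is `pi^(k-1-a) ((1 - pi)⁻¹)^a m⁻¹`. -/
def S_PowD : Prop := ∀ (L : Type) [Field L] [CharZero L] (O : Subring L) (pi : L), OK O pi →
  ∀ A B : L⟦X⟧, In O A → In O B → InM O pi (A - B) → ∀ d : ℕ, 1 ≤ d →
    InM O ((d : L) * pi) (A ^ d - B ^ d)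

/-- **LgC** (from PowD; (H1) of the note).  Proof.  `coeff_cs`: the coefficient of index `e` of the
difference is `∑_(d ≤ e) coeff d (lg L) * coeff e (A^d - B^d)`; the term `d = 0` is `0` (`A^0 - B^0`); for
`d ≥ 1` `coeff d (lg L) = c / d` with an integer `c` and `coeff e (A^d - B^d) = d pi a`, `a ∈ O`. -/
def S_LgC : Prop := ∀ (L : Type) [Field L] [CharZero L] (O : Subring L) (pi : L), OK O pi →
  ∀ A B : L⟦X⟧, In O A → In O B → constantCoeff A = 0 → constantCoeff B = 0 →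
    InM O pi (A - B) → InM O pi (cs (lg L) A - cs (lg L) B)

/-- **SubN**.  Proof.  `coeff_cs`.  `A = B + X^n D` (the coefficients of index `< n` agree:
`X_pow_dvd_iff`).  `A^d - B^d = (A - B) * ∑ A^i B^(d-1-i)` (`Commute.mul_geom_sum₂` / `sub_dvd_pow_sub_pow`) is
divisible by `X^n`, and for `d ≥ 2` by `X^(n+1)` (the second factor has the constant coefficient `0`);
`d = 1`: `A - B`. -/
def S_SubN : Prop := ∀ (L : Type) [Field L] (f A B : L⟦X⟧) (n : ℕ), 1 ≤ n →
  constantCoeff A = 0 → constantCoeff B = 0 → (∀ i, i < n → coeff i A = coeff i B) →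
  (∀ i, i < n → coeff i (cs f A) = coeff i (cs f B)) ∧
    coeff n (cs f A) - coeff n (cs f B) = coeff 1 f * (coeff n A - coeff n B)

/-- **FrSq**.  Proof.  Coefficient of index `m`.  `g²`: `∑_(i+j=m) g_i g_j`; the pairs with `i ≠ j` come in
twos, so their sum is in `2 O ⊆ pi O`; the diagonal term is `g_k²` if `m = 2k`.  `(map Fr g)(X²)` has the
coefficient `Fr g_k` if `m = 2k` and `0` otherwise (`coeff_subst_X_pow`).  (Or: the ring `O/(pi)` has
characteristic `2`; in it `g² = ∑ g_k² X^(2k)`.) -/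
def S_FrSq : Prop := ∀ (L : Type) [Field L] [CharZero L] (O : Subring L) (pi : L), OK O pi →
  ∀ Fr : L →+* L, (∀ a ∈ O, ∃ b ∈ O, Fr a = a ^ 2 + pi * b) → ∀ g : L⟦X⟧, In O g →
    InM O pi (g ^ 2 - cs (map Fr g) (X ^ 2))

/-- **Honda** (from FLog, FInt, LgC, SubN, FrSq).
Proof.  `g = Tof u`, `lg(g) = u` (`lg_Tof`), `ρ = u - C pi⁻¹ (map Fr u)(X²)`.  Strong induction on `n`: the
coefficients of `g` of index `< n` are in `O` (`n ≥ 1`; the coefficient `0` is `0`).  Let `gn` be the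
truncation of `g` (`trunc n g`, or `mk fun i => if i < n then coeff i g else 0`), `In O gn`,
`c = coeff n g`.
(1) `C pi * u = lg(FF(g))` (`cs_cs`, FLog).  (2) `(map Fr u)(X²) = lg(h)`, `h = (map Fr g)(X²)` (`map_cs`,
`map_lg`, `cs_cs`).  So `C pi * ρ = lg(FF(g)) - lg(h)`.
(3) SubN twice (`f = FF`, then `f = lg`; the coefficients of index 1 are `pi` and `1`; `coeff 1 (FF pi) = pi`
from `FF_u2`): `coeff n lg(FF(g)) = coeff n lg(FF(gn)) + pi c`.  Put `hn = (map Fr gn)(X²)`; `h` and `hn` agree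
in the coefficients of index `< n` and `n` (index `2k` needs `coeff k g`, `k < n` if `2k ≤ n`, `n ≥ 1`; `k = 0`
is fine), so by SubN `coeff n lg(h) = coeff n lg(hn)`.
(4) `FF(gn) - gn² = (FF - X²)(gn)` is in `pi O⟦X⟧` (FInt, `InM.cs`) and so is `gn² - hn` (FrSq); hence (LgC)
`coeff n (lg(FF(gn)) - lg(hn)) = pi a`, `a ∈ O`.
(5) `pi coeff n ρ = pi a + pi c`, `pi ≠ 0`, so `c = coeff n ρ - a ∈ O`. -/
def S_Honda : Prop := ∀ (L : Type) [Field L] [CharZero L] (O : Subring L) (pi : L), OK O pi →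
  ∀ Fr : L →+* L, (∀ a ∈ O, ∃ b ∈ O, Fr a = a ^ 2 + pi * b) → Fr pi = pi →
  ∀ u : L⟦X⟧, constantCoeff u = 0 → In O (u - C pi⁻¹ * cs (map Fr u) (X ^ 2)) → In O (Tof u)

/-- **Ident** (from WSol, Star).  Identification of the analytic series.
Proof.  `W = T³ w(T)` (WSol).  Star and the hypothesis: `(T - 2) W (u' - om(T) T') = 0`; `T - 2` has the
constant coefficient `-2`, and `W ≠ 0` since `T ≠ 0` and `w(T)` has the constant coefficient `1`.  So
`u' = om(T) T' = (lg(T))'` and `u = lg(T)` (constant coefficients `0`); `eq_Tof`. -/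
def S_Ident : Prop := ∀ (L : Type) [Field L] [CharZero L] (T W u : L⟦X⟧),
  constantCoeff T = 0 → constantCoeff W = 0 → constantCoeff u = 0 → T ≠ 0 → WEq T W →
  derivative L T * W - T * derivative L W = (T - 2) * W * derivative L u →
    T = Tof u ∧ W = T ^ 3 * cs (w L) T

/-- **Half**.  Sums over a lattice modulo `±1`: if `a(-v) = a(v) ∈ O` and `0 ∉ s = -s` then
`∑_(v ∈ s) a(v) / 2 ∈ O`.  Proof.  Let `s⁺` be the set of the `v ∈ s` with `v.1 > 0`, or `v.1 = 0` and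
`v.2 > 0`; `s` is the disjoint union of `s⁺` and its image under `v ↦ -v`, so the sum is
`2 ∑_(v ∈ s⁺) a(v)`. -/
def S_Half : Prop := ∀ (L : Type) [Field L] [CharZero L] (O : Subring L) (s : Finset (ℤ × ℤ))
  (a : ℤ × ℤ → L), (0, 0) ∉ s → (∀ v ∈ s, -v ∈ s) → (∀ v ∈ s, a (-v) = a v) → (∀ v ∈ s, a v ∈ O) →
  (∑ v ∈ s, a v) / 2 ∈ O

/-! ## C. The final contradiction (F6) -/

/-- `ϖ` is a uniformizer of the valuation ring `V` on the subfield `S`. -/
structure Unif {Om : Type} [Field Om] (V : ValuationSubring Om) (S : Subfield Om) (ϖ : Om) :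
    Prop where
  mem : ϖ ∈ V
  inv : ϖ⁻¹ ∉ V
  rep : ∀ x ∈ S, x ≠ 0 → ∃ k : ℤ, x * ϖ ^ k ∈ V ∧ (x * ϖ ^ k)⁻¹ ∈ V

/-- **DisV**.  Proof.  `A = 𝓞 S` (`integralClosure ℤ S`, a Dedekind domain with the fraction field `S`;
`NumberField S`).  The image of `A` in `Om` is in `V` (integral over `ℤ`, `V` is integrally closed).  Let
`p` be the preimage in `A` of the maximal ideal of `V`; it is prime, and `2 ∈ p`, so `p ≠ ⊥`.  `Ap =
Localization.AtPrime p` is a discrete valuation ring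
(`IsLocalization.AtPrime.isDiscreteValuationRing_of_dedekind_domain`); the elements of `A - p` are units in
`V`, so `A → V` extends to `Ap → V`.  `ϖ` = the image of an irreducible element of `Ap` (it is a
product `a/b` with `a ∈ p`, so it is in the maximal ideal of `V`; not zero).  For `x ∈ S`, `x ≠ 0`:
`x = a/b` with `a, b ∈ A` nonzero, `a = u ϖ^m`, `b = u' ϖ^n` with units `u, u'` of `Ap` (units are mapped to
units); take `k = n - m`. -/
def S_DisV : Prop := ∀ (Om : Type) [Field Om] [CharZero Om] (V : ValuationSubring Om)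
  (S : IntermediateField ℚ Om) [FiniteDimensional ℚ S], (2 : Om)⁻¹ ∉ V →
  ∃ ϖ : Om, Unif V S.toSubfield ϖ

/-- **NormQ**.  Proof.  For the nonzero coefficients `x_n` let `k_n` be as in `Unif.rep`, `e_n = -k_n`.
`ϖ^(e_n) = x_n / (unit) ∈ V`, so `e_n ≥ 0` (`ϖ` is not a unit).  Take `n` with `x_n ≠ 0` and the least `e_n`
(`Nat.find`, or `WellFounded.min`), `c = ϖ^(-e_n)`: `c x_m = (unit) ϖ^(e_m - e_n) ∈ V` for all `m`, a unit for
`m = n`. -/
def S_NormQ : Prop := ∀ (Om : Type) [Field Om] (V : ValuationSubring Om) (S : Subfield Om) (ϖ : Om),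
  Unif V S ϖ → ∀ Q : Om⟦X⟧, Q ≠ 0 → (∀ n, coeff n Q ∈ S) → (∀ n, coeff n Q ∈ V) →
  ∃ c : Om, c ≠ 0 ∧ (∀ n, c * coeff n Q ∈ V) ∧ ∃ n, c * coeff n Q ≠ 0 ∧ (c * coeff n Q)⁻¹ ∈ V

/-- **Res**.  Characteristic `2`.  Proof.  `WEq` is `(1 - T + T² + 2 T W + W²) W = T³`, in characteristic `2`
`U W = T³` with `U = 1 + T + T² + W²`, a unit; so `W ≠ 0`.  Derivative: `U' = T'` (`(T²)' = 2 T T' = 0`), so
`T' W + U W' = 3 T² T' = T² T'`.  Hence `U (T W' - T' W) = T (T² T' - T' W) - T' U W =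
T' (T³ - T W - T³) = - T' T W ≠ 0` (`T' ≠ 0`: its constant coefficient is `coeff 1 T`). -/
def S_Res : Prop := ∀ (F : Type) [Field F] [CharP F 2] (T W : F⟦X⟧), constantCoeff T = 0 →
  coeff 1 T ≠ 0 → constantCoeff W = 0 → WEq T W →
    W ≠ 0 ∧ T * derivative F W ≠ derivative F T * W

/-- **Con** (from WSol, NormQ, Res).  The contradiction.  `e = pi / (1 - pi)²` is `X(s)`.
Proof.  `F` = residue field of `V`; `2 = pi (1 - pi)` is in the maximal ideal, so `F` has characteristic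
`2`; `1 - pi` is a unit, `e` is in the maximal ideal.  `WA = TA³ w(TA)`, `WB = TB³ w(TB)` (WSol) have
coefficients in `V` (`In.cs` with `O = V.toSubring`).  Series with coefficients in `V` come from `V⟦X⟧`
and can be reduced to `F⟦X⟧` (a ring homomorphism, compatible with `derivative`); bars denote reductions.
By NormQ there are `c1`, `c2` with `Q1' = c1 Q1`, `Q2' = c2 Q2` in `V⟦X⟧`, with nonzero reductions.  With
`t = c2 / c1`: `t² Q1'² (WA WB) = (TA - e WA) (pi² TB - (1 - pi) WB) Q2'²`.  The reduction of the right side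
is `TAbar * WBbar * Q2'bar²` (`-1 = 1`), which is not zero (Res for `TB`; `TAbar ≠ 0`); the series
`Q1'² (WA WB)` has the nonzero reduction `Q1'bar² WAbar WBbar`.  If `t ∉ V` then `t⁻¹` is in the maximal
ideal and the equation, multiplied by `t⁻²`, gives `Q1'bar² WAbar WBbar = 0`, a contradiction.  So `t ∈ V`; put
`q = tbar Q1'bar`, `r = Q2'bar`: `q² WAbar WBbar = TAbar WBbar r²`, hence `q² WAbar = TAbar r²` and
`q ≠ 0` (the right side is not zero).  Derivative (`(q²)' = 2 q q' = 0`): `q² WAbar' = TAbar' r²`.  So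
`q² (TAbar WAbar' - TAbar' WAbar) = TAbar TAbar' r² - TAbar' TAbar r² = 0`, a contradiction to Res. -/
def S_Con : Prop := ∀ (Om : Type) [Field Om] [CharZero Om] (V : ValuationSubring Om)
  (S : Subfield Om) (pi ϖ : Om), Unif V S ϖ → pi * (1 - pi) = 2 → pi ∈ V → pi⁻¹ ∉ V →
  ∀ TA WA TB WB Q1 Q2 : Om⟦X⟧, (∀ n, coeff n TA ∈ V) → (∀ n, coeff n TB ∈ V) →
    constantCoeff TA = 0 → constantCoeff TB = 0 → constantCoeff WA = 0 → constantCoeff WB = 0 →
    coeff 1 TA ≠ 0 → (coeff 1 TA)⁻¹ ∈ V → coeff 1 TB ≠ 0 → (coeff 1 TB)⁻¹ ∈ V →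
    WEq TA WA → WEq TB WB → Q1 ≠ 0 → Q2 ≠ 0 →
    (∀ n, coeff n Q1 ∈ S) → (∀ n, coeff n Q2 ∈ S) → (∀ n, coeff n Q1 ∈ V) → (∀ n, coeff n Q2 ∈ V) →
    Q1 ^ 2 * (WA * WB) = (TA - C (pi / (1 - pi) ^ 2) * WA) *
      (C (pi ^ 2) * TB - C (1 - pi) * WB) * Q2 ^ 2 → False

/-- **F6** (from Honda, Ident, DisV, Con).  The output of F4 and F6 in the notation of the interface
of F1 - F3 (helper79) and F5 (helper39); `j : L → Om` is the inclusion of the abelian field `L`, `Fr` the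
Frobenius, `k` a number field in `Om`.
Proof.  `O = V.toSubring.comap j`, `OK O pi`: `2 = pi (1 - pi)` is in the maximal ideal, `1 - pi` and the odd
integers are not (otherwise `1` is), so they are units of `V`.  Honda: `In O (Tof uA)`, `In O (Tof uB)`.
Ident over `Om` (`u = map j uA`): `TA = Tof (map j uA) = map j (Tof uA)` (`map_Tof`), so the coefficients of
`TA`, `TB` are in `V`; `coeff 1 TA = j (coeff 1 uA)` is a unit of `V` (`coeff_one_Tof`), in particular
`TA ≠ 0`.  `Q1 ≠ 0` since `Q2`, `psi ≠ 0`.  Apply Con (with DisV, `S = k.toSubfield`) to `C (c1 c2) * Q1` and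
`C (c1 c2) * (X² Q2)`: `Q1² WA WB = Q2² psi² WA WB = X⁴ (..) (..) Q2²`. -/
def S_F6 : Prop := ∀ (Om : Type) [Field Om] [CharZero Om] (V : ValuationSubring Om)
  (k : IntermediateField ℚ Om) [FiniteDimensional ℚ k] (L : Type) [Field L] [CharZero L]
  (j : L →+* Om) (pi : L) (Fr : L →+* L), pi * (1 - pi) = 2 → j pi ∈ V → (j pi)⁻¹ ∉ V → Fr pi = pi →
  (∀ a : L, j a ∈ V → ∃ b : L, j b ∈ V ∧ Fr a = a ^ 2 + pi * b) →
  ∀ uA uB : L⟦X⟧, constantCoeff uA = 0 → constantCoeff uB = 0 →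
    (∀ n, j (coeff n (uA - C pi⁻¹ * cs (map Fr uA) (X ^ 2))) ∈ V) →
    (∀ n, j (coeff n (uB - C pi⁻¹ * cs (map Fr uB) (X ^ 2))) ∈ V) →
    coeff 1 uA ≠ 0 → j (coeff 1 uA) ∈ V → (j (coeff 1 uA))⁻¹ ∈ V →
    coeff 1 uB ≠ 0 → j (coeff 1 uB) ∈ V → (j (coeff 1 uB))⁻¹ ∈ V →
  ∀ TA WA TB WB psi Q1 Q2 : Om⟦X⟧,
    constantCoeff TA = 0 → constantCoeff TB = 0 → constantCoeff WA = 0 → constantCoeff WB = 0 →
    coeff 1 TA = j (coeff 1 uA) → coeff 1 TB = j (coeff 1 uB) → WEq TA WA → WEq TB WB →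
    derivative Om TA * WA - TA * derivative Om WA = (TA - 2) * WA * derivative Om (map j uA) →
    derivative Om TB * WB - TB * derivative Om WB = (TB - 2) * WB * derivative Om (map j uB) →
    psi ≠ 0 → psi ^ 2 * (WA * WB) = X ^ 4 * ((TA - C (j (pi / (1 - pi) ^ 2)) * WA) *
      (C (j (pi ^ 2)) * TB - C (j (1 - pi)) * WB)) →
    Q2 ≠ 0 → Q2 * psi = Q1 → (∀ n, coeff n Q1 ∈ k) → (∀ n, coeff n Q2 ∈ k) →
    (∃ c ∈ k, c ≠ 0 ∧ ∀ n, c * coeff n Q1 ∈ V) → (∃ c ∈ k, c ≠ 0 ∧ ∀ n, c * coeff n Q2 ∈ V) → False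

end DI.F4
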