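import Pool.Agent.Lib.DI.F4.Spec

/-!
# Theorem DI, part F6: the final contradiction (`S_Con`)
-/

set_option autoImplicit false

namespace DI.F4

open PowerSeries

private theorem Con_map {R S : Type} [CommRing R] [CommRing S] (φ : R →+* S) {T W : R⟦X⟧}
    (h : WEq T W) : WEq (map φ T) (map φ W) := by
  have h1 := congrArg (map φ) h
  simpa only [WEq, map_sub, map_add, map_mul, map_pow, map_ofNat] using h1

private theorem Con_inj {R S : Type} [CommRing R] [CommRing S] (φ : R →+* S)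
    (hφ : Function.Injective φ) {T W : R⟦X⟧} (h : WEq (map φ T) (map φ W)) : WEq T W := by
  apply map_injective φ hφ
  simpa only [WEq, map_sub, map_add, map_mul, map_pow, map_ofNat] using h

/-- the contradiction in characteristic `2` -/
private theorem Con_core (hRes : S_Res) {F : Type} [Field F] [CharP F 2] {TA WA TB WB q r : F⟦X⟧}
    (hTA : constantCoeff TA = 0) (hTB : constantCoeff TB = 0)
    (hWA : constantCoeff WA = 0) (hWB : constantCoeff WB = 0)
    (hA : coeff 1 TA ≠ 0) (hB : coeff 1 TB ≠ 0) (eA : WEq TA WA) (eB : WEq TB WB) (hr : r ≠ 0)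
    (h : q ^ 2 * (WA * WB) = TA * (-WB) * r ^ 2) : False := by
  have h2 : (2 : F⟦X⟧) = 0 := by
    rw [← map_ofNat (C (R := F)), CharTwo.two_eq_zero, map_zero]
  have hTA0 : TA ≠ 0 := by
    rintro rfl
    exact hA (map_zero _)
  obtain ⟨hWB0, -⟩ := hRes F TB WB hTB hB hWB eB
  obtain ⟨-, hne⟩ := hRes F TA WA hTA hA hWA eA
  have h3 : q ^ 2 * WA = -(TA * r ^ 2) := by
    apply mul_right_cancel₀ hWB0
    linear_combination h
  have hq : q ≠ 0 := by
    rintro rfl
    have h4 : TA * r ^ 2 = 0 := by linear_combination h3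
    exact mul_ne_zero hTA0 (pow_ne_zero 2 hr) h4
  have h5 := congrArg (derivative F) h3
  rw [map_neg] at h5
  simp only [Derivation.leibniz, Derivation.leibniz_pow, smul_eq_mul, nsmul_eq_mul] at h5
  have h6 : q ^ 2 * derivative F WA = -(derivative F TA * r ^ 2) := by
    push_cast at h5
    linear_combination h5 - (WA * q * derivative F q + TA * r * derivative F r) * h2
  have h7 : q ^ 2 * (TA * derivative F WA - derivative F TA * WA) = 0 := by
    linear_combination TA * h6 - derivative F TA * h3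
  rcases mul_eq_zero.1 h7 with h8 | h8
  · exact pow_ne_zero 2 hq h8
  · exact hne (sub_eq_zero.1 h8)

/-- lifting of series with coefficients in `V` -/
private theorem Con_lift {Om : Type} [Field Om] (V : ValuationSubring Om) (f : Om⟦X⟧)
    (hf : ∀ n, coeff n f ∈ V) : ∃ g : V⟦X⟧, map V.subtype g = f := by
  refine ⟨mk fun n => ⟨coeff n f, hf n⟩, ?_⟩
  ext n
  rw [coeff_map, coeff_mk]
  rfl

private theorem Con_unit {Om : Type} [Field Om] (V : ValuationSubring Om) {x : V}
    (h0 : (x : Om) ≠ 0) (h : (x : Om)⁻¹ ∈ V) : IsUnit x :=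
  IsUnit.of_mul_eq_one ⟨(x : Om)⁻¹, h⟩ (Subtype.ext (mul_inv_cancel₀ h0))

private theorem Con_res_ne {Om : Type} [Field Om] (V : ValuationSubring Om) {x : V}
    (h0 : (x : Om) ≠ 0) (h : (x : Om)⁻¹ ∈ V) : IsLocalRing.residue V x ≠ 0 := by
  intro h1
  rw [IsLocalRing.residue_eq_zero_iff] at h1
  exact (IsLocalRing.mem_maximalIdeal x).1 h1 (Con_unit V h0 h)

private theorem Con_res_zero {Om : Type} [Field Om] (V : ValuationSubring Om) {x : V}
    (h : (x : Om)⁻¹ ∉ V) : IsLocalRing.residue V x = 0 := by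
  rw [IsLocalRing.residue_eq_zero_iff, IsLocalRing.mem_maximalIdeal]
  rintro ⟨u, rfl⟩
  apply h
  have h1 : ((u : V) : Om)⁻¹ = ((u⁻¹ : Vˣ) : V) := by
    have h2 : ((u : V) : Om) * (((u⁻¹ : Vˣ) : V) : Om) = 1 := by
      exact congrArg V.subtype (Units.mul_inv u)
    exact (eq_inv_of_mul_eq_one_right h2).symm
  rw [h1]
  exact Subtype.mem _

theorem tCon (hWSol : S_WSol) (hNormQ : S_NormQ) (hRes : S_Res) : S_Con := by
  intro Om _ _ V S pi ϖ hU h2 hpi hpi' TA WA TB WB Q1 Q2 vA vB cTA cTB cWA cWB hA hA' hB hB' eA eB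
    hQ1 hQ2 sQ1 sQ2 vQ1 vQ2 heq
  obtain ⟨c1, hc1, vc1, n1, hn1, hn1'⟩ := hNormQ Om V S ϖ hU Q1 hQ1 sQ1 vQ1
  obtain ⟨c2, hc2, vc2, n2, hn2, hn2'⟩ := hNormQ Om V S ϖ hU Q2 hQ2 sQ2 vQ2
  -- `1 - pi` is a unit
  have h1pi0 : 1 - pi ≠ 0 := by
    intro h
    rw [h, mul_zero] at h2
    exact two_ne_zero h2.symm
  have h1pi : (1 - pi)⁻¹ ∈ V := by
    by_contra hcon
    have hz1 : IsLocalRing.residue V (⟨1 - pi, V.sub_mem V.one_mem hpi⟩ : V) = 0 :=
      Con_res_zero V hcon
    have hz2 : IsLocalRing.residue V (⟨pi, hpi⟩ : V) = 0 := Con_res_zero V hpi'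
    have hz3 : (1 : V) = ⟨1 - pi, V.sub_mem V.one_mem hpi⟩ + ⟨pi, hpi⟩ :=
      Subtype.ext (sub_add_cancel 1 pi).symm
    have hz4 := congrArg (IsLocalRing.residue V) hz3
    rw [map_one, map_add, hz1, hz2, add_zero] at hz4
    exact one_ne_zero hz4
  -- the coefficients of `WA`, `WB` are in `V`
  have vWA : ∀ n, coeff n WA ∈ V := by
    obtain ⟨h3, h4⟩ := hWSol Om TA cTA
    have h5 : WA = TA ^ 3 * cs (w Om) TA := by
      refine h4 _ _ cWA ?_ eA h3
      rw [map_mul, map_pow, cTA]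
      ring
    have h6 : In V.toSubring TA := vA
    have h7 : In V.toSubring WA := by
      rw [h5]
      exact (h6.pow 3).mul (In.w.cs h6 cTA)
    exact h7
  have vWB : ∀ n, coeff n WB ∈ V := by
    obtain ⟨h3, h4⟩ := hWSol Om TB cTB
    have h5 : WB = TB ^ 3 * cs (w Om) TB := by
      refine h4 _ _ cWB ?_ eB h3
      rw [map_mul, map_pow, cTB]
      ring
    have h6 : In V.toSubring TB := vB
    have h7 : In V.toSubring WB := by
      rw [h5]
      exact (h6.pow 3).mul (In.w.cs h6 cTB)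
    exact h7
  -- lifts
  have hinj : Function.Injective V.subtype := Subtype.val_injective
  obtain ⟨tA, rfl⟩ := Con_lift V TA vA
  obtain ⟨tB, rfl⟩ := Con_lift V TB vB
  obtain ⟨wA, rfl⟩ := Con_lift V WA vWA
  obtain ⟨wB, rfl⟩ := Con_lift V WB vWB
  obtain ⟨q1, hq1⟩ := Con_lift V (C c1 * Q1) (fun n => by rw [coeff_C_mul]; exact vc1 n)
  obtain ⟨q2, hq2⟩ := Con_lift V (C c2 * Q2) (fun n => by rw [coeff_C_mul]; exact vc2 n)
  obtain ⟨p, rfl⟩ : ∃ p : V, V.subtype p = pi := ⟨⟨pi, hpi⟩, rfl⟩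
  obtain ⟨i, hi⟩ : ∃ i : V, V.subtype i = (1 - V.subtype p)⁻¹ := ⟨⟨_, h1pi⟩, rfl⟩
  have hi1 : (1 - V.subtype p) * V.subtype i = 1 := by
    rw [hi]
    exact mul_inv_cancel₀ h1pi0
  have he : V.subtype p / (1 - V.subtype p) ^ 2 = V.subtype (p * i ^ 2) := by
    rw [map_mul, map_pow, hi, div_eq_mul_inv, inv_pow]
  rw [he] at heq
  -- the residue field
  have hp0 : IsLocalRing.residue V p = 0 := Con_res_zero V hpi'
  have h2F : (2 : IsLocalRing.ResidueField V) = 0 := by
    have h3 : (2 : V) = p * (1 - p) := by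
      apply hinj
      rw [map_mul, map_sub, map_one, map_ofNat]
      exact h2.symm
    have h4 := congrArg (IsLocalRing.residue V) h3
    rwa [map_ofNat, map_mul, hp0, zero_mul] at h4
  have : CharP (IsLocalRing.ResidueField V) 2 :=
    CharTwo.of_one_ne_zero_of_two_eq_zero one_ne_zero h2F
  -- the data over the residue field
  have red_cc : ∀ f : V⟦X⟧, constantCoeff (map V.subtype f) = 0 →
      constantCoeff (map (IsLocalRing.residue V) f) = 0 := by
    intro f hf
    rw [cc_map] at hf ⊢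
    have h3 : constantCoeff f = 0 := by
      apply hinj
      rw [hf, map_zero]
    rw [h3, map_zero]
  have red_ne : ∀ (f : V⟦X⟧) (n : ℕ), coeff n (map V.subtype f) ≠ 0 →
      (coeff n (map V.subtype f))⁻¹ ∈ V → coeff n (map (IsLocalRing.residue V) f) ≠ 0 := by
    intro f n h3 h4
    rw [coeff_map] at h3 h4 ⊢
    exact Con_res_ne V h3 h4
  have dA := red_ne tA 1 hA hA'
  have dB := red_ne tB 1 hB hB'
  have fA := Con_map (IsLocalRing.residue V) (Con_inj V.subtype hinj eA)
  have fB := Con_map (IsLocalRing.residue V) (Con_inj V.subtype hinj eB)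
  have gTA := red_cc tA cTA
  have gTB := red_cc tB cTB
  have gWA := red_cc wA cWA
  have gWB := red_cc wB cWB
  have hr1 : map (IsLocalRing.residue V) q1 ≠ 0 := by
    intro h
    refine red_ne q1 n1 ?_ ?_ (by rw [h, map_zero])
    · rw [hq1, coeff_C_mul]
      exact hn1
    · rw [hq1, coeff_C_mul]
      exact hn1'
  have hr2 : map (IsLocalRing.residue V) q2 ≠ 0 := by
    intro h
    refine red_ne q2 n2 ?_ ?_ (by rw [h, map_zero])
    · rw [hq2, coeff_C_mul]
      exact hn2
    · rw [hq2, coeff_C_mul]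
      exact hn2'
  -- the equation, multiplied by the square of c1 c2
  have heq2 : C c2 ^ 2 * map V.subtype q1 ^ 2 * (map V.subtype wA * map V.subtype wB) =
      C c1 ^ 2 * ((map V.subtype tA - C (V.subtype (p * i ^ 2)) * map V.subtype wA) *
      (C (V.subtype p ^ 2) * map V.subtype tB - C (1 - V.subtype p) * map V.subtype wB) *
      map V.subtype q2 ^ 2) := by
    rw [hq1, hq2]
    linear_combination (C c1 ^ 2 * C c2 ^ 2) * heq
  by_cases ht : c2 / c1 ∈ V
  · obtain ⟨t, ht'⟩ : ∃ t : V, V.subtype t = c2 / c1 := ⟨⟨_, ht⟩, rfl⟩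
    have ht2 : c2 = c1 * V.subtype t := by
      rw [ht']
      field_simp
    have h3 : C t ^ 2 * q1 ^ 2 * (wA * wB) = (tA - C (p * i ^ 2) * wA) *
        (C (p ^ 2) * tB - C (1 - p) * wB) * q2 ^ 2 := by
      apply map_injective V.subtype hinj
      apply mul_left_cancel₀ (pow_ne_zero 2 ((map_ne_zero_iff (C (R := Om)) C_injective).2 hc1))
      simp only [map_mul, map_sub, map_pow, map_C, map_one] at heq2 ⊢
      rw [ht2, map_mul] at heq2
      linear_combination heq2
    have h4 := congrArg (map (IsLocalRing.residue V)) h3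
    simp only [map_mul, map_sub, map_pow, map_C, map_one, hp0, map_zero] at h4
    refine Con_core hRes (q := C (IsLocalRing.residue V t) * map (IsLocalRing.residue V) q1)
      gTA gTB gWA gWB dA dB fA fB hr2 ?_
    linear_combination h4
  · have ht0 : c2 / c1 ≠ 0 := div_ne_zero hc2 hc1
    have ht1 : (c2 / c1)⁻¹ ∈ V := (V.mem_or_inv_mem _).resolve_left ht
    obtain ⟨s, hs⟩ : ∃ s : V, V.subtype s = (c2 / c1)⁻¹ := ⟨⟨_, ht1⟩, rfl⟩
    have hs0 : IsLocalRing.residue V s = 0 := by
      apply Con_res_zero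
      change (V.subtype s)⁻¹ ∉ V
      rw [hs, inv_inv]
      exact ht
    have hs2 : c1 = c2 * V.subtype s := by
      rw [hs]
      field_simp
    have h3 : q1 ^ 2 * (wA * wB) = C s ^ 2 * ((tA - C (p * i ^ 2) * wA) *
        (C (p ^ 2) * tB - C (1 - p) * wB) * q2 ^ 2) := by
      apply map_injective V.subtype hinj
      apply mul_left_cancel₀ (pow_ne_zero 2 ((map_ne_zero_iff (C (R := Om)) C_injective).2 hc2))
      simp only [map_mul, map_sub, map_pow, map_C, map_one] at heq2 ⊢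
      rw [hs2, map_mul] at heq2
      linear_combination heq2
    have h4 := congrArg (map (IsLocalRing.residue V)) h3
    simp only [map_mul, map_pow, map_C, hs0, map_zero] at h4
    obtain ⟨hWA0, -⟩ := hRes _ _ _ gTA dA gWA fA
    obtain ⟨hWB0, -⟩ := hRes _ _ _ gTB dB gWB fB
    refine mul_ne_zero (pow_ne_zero 2 hr1) (mul_ne_zero hWA0 hWB0) ?_
    rw [h4]
    ring

end DI.F4
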