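import Pool.Agent.Lib.DI.F4.Spec

set_option autoImplicit false

/-!
# Theorem DI, F6: uniformizer of a valuation ring on a number field
-/

namespace DI.F4

open PowerSeries

private theorem DisV_nf (Om : Type) [Field Om] [CharZero Om] (S : IntermediateField ℚ Om)
    [h : FiniteDimensional ℚ S] : NumberField S where
  to_charZero := inferInstance
  to_finiteDimensional := by
    convert h

private theorem DisV_int (Om : Type) [Field Om] (V : ValuationSubring Om) (x : Om)
    (hx : IsIntegral ℤ x) : x ∈ V := by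
  have h1 : IsIntegral V x := hx.tower_top
  obtain ⟨y, hy⟩ := (IsIntegrallyClosed.isIntegral_iff (R := V) (K := Om)).1 h1
  rw [← hy]
  exact y.2

theorem tDisV : S_DisV := by
  intro Om _ _ V S _ h2
  have : NumberField S := DisV_nf Om S
  -- the map from the integers
  let A := NumberField.RingOfIntegers S
  let f0 : A →+* Om := (algebraMap S Om).comp (algebraMap A S)
  have hf0 : ∀ a : A, f0 a ∈ V := fun a => DisV_int Om V _
    ((NumberField.RingOfIntegers.isIntegral_coe a).map
      ((algebraMap S Om).toIntAlgHom))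
  have hinj0 : Function.Injective f0 :=
    (algebraMap S Om).injective.comp (NumberField.RingOfIntegers.coe_injective)
  let f : A →+* V := f0.codRestrict V.toSubring hf0
  have hf : ∀ a, ((f a : V) : Om) = f0 a := fun a => rfl
  let p : Ideal A := (IsLocalRing.maximalIdeal V).comap f
  have hp : p.IsPrime := Ideal.IsPrime.comap f
  have h2p : (2 : A) ∈ p := by
    change f 2 ∈ IsLocalRing.maximalIdeal V
    rw [IsLocalRing.mem_maximalIdeal, mem_nonunits_iff]
    rintro ⟨u, hu⟩
    apply h2
    have h3 : ((u : V) : Om) = 2 := by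
      rw [hu, hf, map_ofNat]
    have h4 : ((u⁻¹ : Vˣ) : V).1 * ((u : V) : Om) = 1 :=
      congrArg (fun z : V => (z : Om)) (Units.inv_mul u)
    have h5 : (2 : Om)⁻¹ = ((u⁻¹ : Vˣ) : V).1 := by
      rw [h3] at h4
      exact (eq_inv_of_mul_eq_one_left h4).symm
    rw [h5]
    exact ((u⁻¹ : Vˣ) : V).2
  have hp0 : p ≠ ⊥ := by
    intro h
    rw [h, Ideal.mem_bot] at h2p
    exact two_ne_zero h2p
  have : IsDiscreteValuationRing (Localization.AtPrime p) :=
    IsLocalization.AtPrime.isDiscreteValuationRing_of_dedekind_domain A hp0 _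
  have hunit : ∀ y : p.primeCompl, IsUnit (f y) := by
    intro y
    by_contra hy
    exact y.2 ((IsLocalRing.mem_maximalIdeal _).2 hy)
  let g : Localization.AtPrime p →+* V := IsLocalization.lift hunit
  have hg : ∀ a : A, g (algebraMap A _ a) = f a := fun a => IsLocalization.lift_eq hunit a
  have hginj : Function.Injective g := by
    rw [injective_iff_map_eq_zero]
    intro z hz
    obtain ⟨a, s, rfl⟩ := IsLocalization.exists_mk'_eq p.primeCompl z
    have h6 : g (IsLocalization.mk' _ a s) * f s = f a := by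
      rw [← hg, ← hg, ← map_mul, IsLocalization.mk'_spec]
    rw [hz, zero_mul] at h6
    have h7 : f0 a = 0 := by
      rw [← hf, ← h6]
      rfl
    have h8 : a = 0 := hinj0 (by rw [h7, map_zero])
    rw [h8, IsLocalization.mk'_zero]
  obtain ⟨ϖ, hϖ⟩ := IsDiscreteValuationRing.exists_irreducible (Localization.AtPrime p)
  have hϖ0 : ((g ϖ : V) : Om) ≠ 0 := by
    intro h
    have h9 : g ϖ = 0 := Subtype.ext h
    exact hϖ.ne_zero (hginj (by rw [h9, map_zero]))
  have hmax : g ϖ ∈ IsLocalRing.maximalIdeal V := by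
    have h10 : ϖ ∈ IsLocalRing.maximalIdeal (Localization.AtPrime p) :=
      (IsLocalRing.mem_maximalIdeal _).2 hϖ.not_isUnit
    rw [← Localization.AtPrime.map_eq_maximalIdeal] at h10
    have h11 : Ideal.map (algebraMap A (Localization.AtPrime p)) p ≤
        (IsLocalRing.maximalIdeal V).comap g := by
      rw [Ideal.map_le_iff_le_comap]
      intro a ha
      change g (algebraMap A _ a) ∈ IsLocalRing.maximalIdeal V
      rw [hg]
      exact ha
    exact h11 h10
  have hu : ∀ u : (Localization.AtPrime p)ˣ, ((g u : V) : Om) * ((g (u⁻¹ : (Localization.AtPrime p)ˣ) : V) : Om) = 1 := by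
    intro u
    have h12 : g u * g (u⁻¹ : (Localization.AtPrime p)ˣ) = 1 := by
      rw [← map_mul, Units.mul_inv, map_one]
    exact congrArg (fun z : V => (z : Om)) h12
  refine ⟨((g ϖ : V) : Om), (g ϖ).2, ?_, ?_⟩
  · intro h
    rw [IsLocalRing.mem_maximalIdeal, mem_nonunits_iff] at hmax
    apply hmax
    refine IsUnit.of_mul_eq_one ⟨_, h⟩ ?_
    apply Subtype.ext
    exact mul_inv_cancel₀ hϖ0
  · intro x hx hx0
    obtain ⟨a, b, hb, hab⟩ := IsFractionRing.div_surjective (A := A) (⟨x, hx⟩ : S)
    have hb0 : b ≠ 0 := nonZeroDivisors.ne_zero hb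
    have hx' : x = f0 a / f0 b := by
      have := congrArg (algebraMap S Om) hab
      rw [map_div₀] at this
      exact this.symm
    have ha0 : a ≠ 0 := by
      rintro rfl
      rw [map_zero, zero_div] at hx'
      exact hx0 hx'
    have key : ∀ c : A, c ≠ 0 → ∃ (n : ℕ) (u : (Localization.AtPrime p)ˣ),
        f0 c = ((g u : V) : Om) * ((g ϖ : V) : Om) ^ n := by
      intro c hc
      have hc' : algebraMap A (Localization.AtPrime p) c ≠ 0 := by
        intro h
        apply hc
        apply hinj0
        rw [← hf, ← hg, h, map_zero, map_zero]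
        rfl
      obtain ⟨n, u, hnu⟩ := IsDiscreteValuationRing.eq_unit_mul_pow_irreducible hc' hϖ
      refine ⟨n, u, ?_⟩
      have := congrArg (fun z => ((g z : V) : Om)) hnu
      simp only [map_mul, map_pow, hg] at this
      exact this
    obtain ⟨m, u, hm⟩ := key a ha0
    obtain ⟨n, v, hn⟩ := key b hb0
    have hu0 : ((g u : V) : Om) ≠ 0 := left_ne_zero_of_mul_eq_one (hu u)
    have hv0 : ((g v : V) : Om) ≠ 0 := left_ne_zero_of_mul_eq_one (hu v)
    refine ⟨(n : ℤ) - m, ?_, ?_⟩
    · have h13 : x * ((g ϖ : V) : Om) ^ ((n : ℤ) - m) =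
          ((g u : V) : Om) * ((g (v⁻¹ : (Localization.AtPrime p)ˣ) : V) : Om) := by
        rw [eq_inv_of_mul_eq_one_right (hu v), hx', hm, hn, zpow_sub₀ hϖ0, zpow_natCast, zpow_natCast]
        field_simp
      rw [h13]
      exact mul_mem (g u).2 (g _).2
    · have h13 : (x * ((g ϖ : V) : Om) ^ ((n : ℤ) - m))⁻¹ =
          ((g v : V) : Om) * ((g (u⁻¹ : (Localization.AtPrime p)ˣ) : V) : Om) := by
        rw [eq_inv_of_mul_eq_one_right (hu u), hx', hm, hn, zpow_sub₀ hϖ0, zpow_natCast, zpow_natCast]
        field_simp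
      rw [h13]
      exact mul_mem (g v).2 (g _).2

end DI.F4
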