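import Pool.Agent.Lib.DI.F4.Spec

/-!
# Theorem DI, F6: assembly of F4 and F6
-/

set_option autoImplicit false

namespace DI.F4

open PowerSeries

private theorem F6_lt {Om : Type} [Field Om] {V : ValuationSubring Om} {p : Om}
    (h : p⁻¹ ∉ V) : V.valuation p < 1 := by
  by_contra hcon
  rw [not_lt] at hcon
  apply h
  rw [← V.valuation_le_one_iff, map_inv₀]
  exact inv_le_one_of_one_le₀ hcon

private theorem F6_inv_one_sub {Om : Type} [Field Om] {V : ValuationSubring Om} {p : Om}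
    (h : p⁻¹ ∉ V) : (1 - p)⁻¹ ∈ V := by
  rw [← V.valuation_le_one_iff, map_inv₀, Valuation.map_one_sub_of_lt _ (F6_lt h), inv_one]

private theorem F6_two {Om : Type} [Field Om] {V : ValuationSubring Om} {p : Om}
    (h : p⁻¹ ∉ V) (h2 : p * (1 - p) = 2) : V.valuation (2 : Om) < 1 := by
  rw [← h2, map_mul, Valuation.map_one_sub_of_lt _ (F6_lt h), mul_one]
  exact F6_lt h

private theorem F6_odd {Om : Type} [Field Om] {V : ValuationSubring Om} {p : Om}
    (h : p⁻¹ ∉ V) (h2 : p * (1 - p) = 2) {n : ℕ} (hn : Odd n) : ((n : Om))⁻¹ ∈ V := by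
  obtain ⟨m, rfl⟩ := hn
  have hm : V.valuation (m : Om) ≤ 1 := by
    rw [V.valuation_le_one_iff]
    exact natCast_mem V m
  have h3 : V.valuation ((2 : Om) * m) < 1 := by
    rw [map_mul]
    exact mul_lt_one_of_lt_of_le (F6_two h h2) hm
  have h4 : V.valuation (((2 * m + 1 : ℕ) : Om)) = 1 := by
    push_cast
    rw [add_comm]
    exact Valuation.map_one_add_of_lt _ h3
  rw [← V.valuation_le_one_iff, map_inv₀, h4, inv_one]

private theorem F6_OK {Om L : Type} [Field Om] [Field L] (V : ValuationSubring Om)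
    (j : L →+* Om) (pi : L) (h2 : pi * (1 - pi) = 2) (hp : j pi ∈ V) (hp' : (j pi)⁻¹ ∉ V) :
    OK (V.toSubring.comap j) pi where
  pi_mem := hp
  two := h2
  inv := by
    change j ((1 - pi)⁻¹) ∈ V
    rw [map_inv₀, map_sub, map_one]
    exact F6_inv_one_sub hp'
  odd := by
    intro n hn
    change j ((n : L)⁻¹) ∈ V
    rw [map_inv₀, map_natCast]
    refine F6_odd hp' ?_ hn
    have h := congrArg j h2
    rwa [map_mul, map_sub, map_one, map_ofNat] at h

/-- one constant for both series -/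
private theorem F6_const {Om : Type} [Field Om] (V : ValuationSubring Om) {S : Set Om}
    {Q1 Q2 : Om⟦X⟧} (h1 : ∃ c ∈ S, c ≠ 0 ∧ ∀ n, c * coeff n Q1 ∈ V)
    (h2 : ∃ c ∈ S, c ≠ 0 ∧ ∀ n, c * coeff n Q2 ∈ V) :
    ∃ c ∈ S, c ≠ 0 ∧ (∀ n, c * coeff n Q1 ∈ V) ∧ ∀ n, c * coeff n Q2 ∈ V := by
  obtain ⟨c1, hc1, h10, h11⟩ := h1
  obtain ⟨c2, hc2, h20, h21⟩ := h2
  rcases V.mem_or_inv_mem (c2 / c1) with h | h
  · refine ⟨c2, hc2, h20, fun n => ?_, h21⟩
    have h3 : c2 * coeff n Q1 = c2 / c1 * (c1 * coeff n Q1) := by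
      field_simp
    rw [h3]
    exact V.mul_mem _ _ h (h11 n)
  · refine ⟨c1, hc1, h10, h11, fun n => ?_⟩
    have h3 : c1 * coeff n Q2 = (c2 / c1)⁻¹ * (c2 * coeff n Q2) := by
      field_simp
    rw [h3]
    exact V.mul_mem _ _ h (h21 n)

/-- the coefficients of the analytic series are integral -/
private theorem F6_int (hHonda : S_Honda) (hIdent : S_Ident) {Om L : Type} [Field Om] [CharZero Om]
    [Field L] [CharZero L] (V : ValuationSubring Om) (j : L →+* Om) (pi : L) (Fr : L →+* L)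
    (hOK : OK (V.toSubring.comap j) pi) (hFp : Fr pi = pi)
    (hFr : ∀ a : L, j a ∈ V → ∃ b : L, j b ∈ V ∧ Fr a = a ^ 2 + pi * b)
    (u : L⟦X⟧) (hu : constantCoeff u = 0)
    (hint : ∀ n, j (coeff n (u - C pi⁻¹ * cs (map Fr u) (X ^ 2))) ∈ V)
    (h1 : coeff 1 u ≠ 0) (T W : Om⟦X⟧) (hT : constantCoeff T = 0) (hW : constantCoeff W = 0)
    (hTu : coeff 1 T = j (coeff 1 u)) (hE : WEq T W)
    (hd : derivative Om T * W - T * derivative Om W = (T - 2) * W * derivative Om (map j u)) :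
    ∀ n, coeff n T ∈ V := by
  have hH : In (V.toSubring.comap j) (Tof u) := hHonda L (V.toSubring.comap j) pi hOK Fr
    (fun a ha => hFr a ha) hFp u hu (fun n => hint n)
  have hT0 : T ≠ 0 := by
    rintro rfl
    rw [map_zero] at hTu
    exact h1 (j.injective (by rw [← hTu, map_zero]))
  have hI := (hIdent Om T W (map j u) hT hW (by rw [cc_map, hu, map_zero]) hT0 hE hd).1
  intro n
  rw [hI, ← map_Tof j hu, coeff_map]
  exact hH n

theorem tF6 (hHonda : S_Honda) (hIdent : S_Ident) (hDisV : S_DisV) (hCon : S_Con) : S_F6 := by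
  intro Om _ _ V k _ L _ _ j pi Fr h2 hp hp' hFp hFr uA uB huA huB hintA hintB hA0 hA1 hA2 hB0 hB1
    hB2 TA WA TB WB psi Q1 Q2 hTA hTB hWA hWB hTuA hTuB hEA hEB hdA hdB hpsi hrel hQ2 hQ hk1 hk2
    hc1 hc2
  have hOK := F6_OK V j pi h2 hp hp'
  have hTAV := F6_int hHonda hIdent V j pi Fr hOK hFp hFr uA huA hintA hA0 TA WA hTA hWA hTuA hEA hdA
  have hTBV := F6_int hHonda hIdent V j pi Fr hOK hFp hFr uB huB hintB hB0 TB WB hTB hWB hTuB hEB hdB
  have h2' : j pi * (1 - j pi) = 2 := by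
    have h := congrArg j h2
    rwa [map_mul, map_sub, map_one, map_ofNat] at h
  have h2V : (2 : Om)⁻¹ ∉ V := by
    intro h
    rw [← V.valuation_le_one_iff, map_inv₀] at h
    have h3 := F6_two hp' h2'
    have h4 : V.valuation (2 : Om) ≠ 0 := by
      rw [Ne, _root_.map_eq_zero]
      exact two_ne_zero
    have h5 := (inv_le_one₀ (zero_lt_iff.2 h4)).1 h
    exact absurd h5 (not_le.2 h3)
  obtain ⟨ϖ, hϖ⟩ := hDisV Om V k h2V
  obtain ⟨c, hck, hc0, hcQ1, hcQ2⟩ := F6_const (S := (k : Set Om)) V hc1 hc2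
  have hQ1 : Q1 ≠ 0 := by
    rw [← hQ]
    exact mul_ne_zero hQ2 hpsi
  have hCc : (C c : Om⟦X⟧) ≠ 0 := by
    rw [Ne, map_eq_zero_iff _ (C_injective (R := Om))]
    exact hc0
  have hjA : j (coeff 1 uA) ≠ 0 := by
    rw [Ne, _root_.map_eq_zero]
    exact hA0
  have hjB : j (coeff 1 uB) ≠ 0 := by
    rw [Ne, _root_.map_eq_zero]
    exact hB0
  refine hCon Om V k.toSubfield (j pi) ϖ hϖ h2' hp hp' TA WA TB WB (C c * Q1)
    (C c * (X ^ 2 * Q2)) hTAV hTBV hTA hTB hWA hWB (by rwa [hTuA]) (by rwa [hTuA]) (by rwa [hTuB])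
    (by rwa [hTuB]) hEA hEB (mul_ne_zero hCc hQ1)
    (mul_ne_zero hCc (mul_ne_zero (pow_ne_zero 2 X_ne_zero) hQ2)) ?_ ?_ ?_ ?_ ?_
  · intro n
    rw [coeff_C_mul]
    exact k.toSubfield.mul_mem hck (hk1 n)
  · intro n
    rw [coeff_C_mul, coeff_X_pow_mul']
    refine k.toSubfield.mul_mem hck ?_
    split_ifs
    · exact hk2 _
    · exact k.toSubfield.zero_mem
  · intro n
    rw [coeff_C_mul]
    exact hcQ1 n
  · intro n
    rw [coeff_C_mul, coeff_X_pow_mul']
    split_ifs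
    · exact hcQ2 _
    · rw [mul_zero]
      exact V.zero_mem
  · have e1 : j (pi / (1 - pi) ^ 2) = j pi / (1 - j pi) ^ 2 := by
      rw [map_div₀, map_pow, map_sub, map_one]
    rw [e1, map_pow, map_sub, map_one] at hrel
    rw [← hQ]
    linear_combination (C c * Q2) ^ 2 * hrel

end DI.F4
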