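import Pool.Agent.Lib.DI.F4.Spec

/-!
# Theorem DI, part F4: the differential is multiplied by `pi` (helper23)
-/

set_option autoImplicit false

namespace DI.F4

open PowerSeries

private theorem FDer_u1 {L : Type} [Field L] (pi : L) : derivative L (u1 pi) =
    -(C pi * (X ^ 2 * w L) * (2 * (X * (2 * w L + X * derivative L (w L))))) := by
  unfold u1
  simp only [map_sub, Derivation.leibniz, Derivation.leibniz_pow, Derivation.map_one_eq_zero,
    derivative_C, derivative_X, smul_eq_mul, nsmul_eq_mul]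
  push_cast
  ring

private theorem FDer_v1 {L : Type} [Field L] (pi : L) :
    derivative L (X ^ 2 * w L * v1 pi) = (C pi ^ 2 - 2 * (1 - C pi) * (X ^ 2 * w L)) *
      (X * (2 * w L + X * derivative L (w L))) := by
  unfold v1
  simp only [map_sub, Derivation.leibniz, Derivation.leibniz_pow, Derivation.map_one_eq_zero,
    derivative_C, derivative_X, smul_eq_mul, nsmul_eq_mul]
  push_cast
  ring

private theorem FDer_alg {K : Type} [CommRing K] [IsDomain K]
    {p x W W' om N M N' M' v s r R u F G F' G' : K} (hM0 : M ≠ 0) (hu : u ≠ 0)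
    (h1 : p * (1 - p) = 2)
    (hN : N = 1 - p * (x ^ 4 * W ^ 2)) (hM : M = x ^ 2 * W * v)
    (hv : v = p ^ 2 - (1 - p) * (x ^ 2 * W))
    (hN' : N' = -(p * (x ^ 2 * W) * (2 * (x * (2 * W + x * W')))))
    (hM' : M' = (p ^ 2 - 2 * (1 - p) * (x ^ 2 * W)) * (x * (2 * W + x * W')))
    (hr : r = p - (1 - p) ^ 2 * (x ^ 2 * W) + p ^ 2 * (x ^ 2 * W) ^ 2)
    (hR : R = r + x * s) (hF : F * u = x * W * N * R) (hG : G * u = x ^ 3 * v * R * W ^ 2)
    (e1 : v * u = W * R ^ 2 + x * W * N * v * R) (e2 : 2 * s + N * v = -r)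
    (hD : F * M = G * N → F' * M + F * M' = G' * N + G * N')
    (hW : 2 * W + x * W' = W * (2 - x) * om) :
    F' * G - F * G' = p * ((F - 2) * G * om) := by
  have i1 : N' * M - N * M' = -(p * x * r * (2 * W + x * W')) := by
    rw [hN, hM, hN', hM', hr, hv]
    linear_combination (-(x * (2 * W + x * W') * (x ^ 2 * W) * (1 - p))) * h1
  have i2 : F * M = G * N := by
    refine mul_right_cancel₀ hu ?_
    rw [hM]
    linear_combination (x ^ 2 * W * v) * hF - N * hG
  have i3 := hD i2
  have i4 : (F' * G - F * G') * M ^ 2 = G ^ 2 * (N' * M - N * M') := by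
    linear_combination G * M * i3 - (G * M' + G' * M) * i2
  have i5 : (2 - F) * M ^ 2 = G * x * r * W * (2 - x) := by
    refine mul_right_cancel₀ hu ?_
    rw [hM]
    linear_combination 2 * x ^ 4 * W ^ 2 * v * e1 - x ^ 4 * W ^ 2 * v ^ 2 * hF -
      x * r * W * (2 - x) * hG + x ^ 4 * W ^ 3 * v * R * (2 * hR + x * e2)
  have i6 : (F' * G - F * G') * M ^ 2 = p * ((F - 2) * G * om) * M ^ 2 := by
    rw [i4, i1, hW]
    linear_combination p * G * om * i5
  exact mul_right_cancel₀ (pow_ne_zero 2 hM0) i6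

theorem tFDer (hWDer : S_WDer) : S_FDer := by
  intro L _ _ pi hpi
  have hpi0 : pi ≠ 0 := by
    rintro rfl
    rw [zero_mul] at hpi
    exact two_ne_zero hpi.symm
  have hw0 : w L ≠ 0 := by
    intro h
    have := w_const L
    rw [h, map_zero] at this
    exact zero_ne_one this
  have hv0 : v1 pi ≠ 0 := by
    intro h
    have h2 : constantCoeff (v1 pi) = pi ^ 2 := by simp [v1]
    rw [h, map_zero] at h2
    exact pow_ne_zero 2 hpi0 h2.symm
  have hu0 : u2 pi ≠ 0 := by
    intro h
    have := u2_const pi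
    rw [h, map_zero] at this
    exact zero_ne_one this
  have hM0 : X ^ 2 * w L * v1 pi ≠ 0 :=
    mul_ne_zero (mul_ne_zero (pow_ne_zero 2 X_ne_zero) hw0) hv0
  refine FDer_alg (M := X ^ 2 * w L * v1 pi) (N := u1 pi) (v := v1 pi) (r := rr pi) (s := ss pi)
    (R := R1 pi) (u := u2 pi) (W := w L) (W' := derivative L (w L)) (x := X)
    (N' := derivative L (u1 pi)) (M' := derivative L (X ^ 2 * w L * v1 pi))
    hM0 hu0 (C_two hpi) rfl rfl rfl (FDer_u1 pi) (FDer_v1 pi) rfl rfl (FF_u2 pi) (GG_u2 pi)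
    (v1_u2 pi hpi) (ss_rr pi hpi) ?_ (hWDer L)
  intro h
  have h3 := congrArg (derivative L) h
  have hL : ∀ a b : L⟦X⟧, derivative L (a * b) = a * derivative L b + b * derivative L a :=
    fun a b => by rw [Derivation.leibniz, smul_eq_mul, smul_eq_mul]
  rw [hL (FF pi), hL (GG pi)] at h3
  linear_combination h3

end DI.F4
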