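import Pool.Agent.Lib.DI.F4.Spec

/-!
# Theorem DI, part F4, module FInt: `FF` is integral and congruent to `X²` modulo `pi`
-/

set_option autoImplicit false

namespace DI.F4

open PowerSeries

/-- the series `S` of the docstring of `S_FInt` -/
private def FInt_S {R : Type} [CommRing R] (p X W : R) : R :=
  X * W + (p - 1) * X ^ 2 - p * X ^ 2 * W + (p - 1) * X ^ 3 * W + (2 - p) * X ^ 3 * W ^ 2 +
    X ^ 4 * W + (p - 2) * X ^ 4 * W ^ 2 + (1 - p) * X ^ 5 * W ^ 2 +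
    (1 - 3 * p) * X ^ 6 * W ^ 2 + (2 * p - 3) * X ^ 6 * W ^ 3 + (2 - 2 * p) * X ^ 7 * W ^ 3 -
    (p + 1) * X ^ 7 * W ^ 4 + (1 - 2 * p) * X ^ 8 * W ^ 3 + (2 * p - 1) * X ^ 8 * W ^ 4 +
    (1 - p) * X ^ 9 * W ^ 4 + (2 - p) * X ^ 9 * W ^ 5 + (4 - p) * X ^ 10 * W ^ 4 +
    p * X ^ 10 * W ^ 5 + (2 + 3 * p) * X ^ 12 * W ^ 5 + X ^ 12 * W ^ 6 +
    (2 * p - 2) * X ^ 14 * W ^ 6

private theorem FInt_id {R : Type} [CommRing R] (p X W : R) (h1 : p * (1 - p) = 2)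
    (h2 : W = 1 + X * W - X ^ 2 * W - 2 * (X ^ 4 * W ^ 2) - X ^ 6 * W ^ 3) :
    X * W * (1 - p * (X ^ 4 * W ^ 2)) * ((p - (1 - p) ^ 2 * (X ^ 2 * W) +
      p ^ 2 * (X ^ 2 * W) ^ 2) + X * ((1 - p) - p * (X ^ 2 * W) - p * (X ^ 2 * W) ^ 2 -
      (X ^ 2 * W) ^ 3)) -
    X ^ 2 * ((1 - p * (X ^ 4 * W ^ 2)) ^ 3 - (X ^ 2 * W) * (1 - p * (X ^ 4 * W ^ 2)) ^ 2 *
      (p ^ 2 - (1 - p) * (X ^ 2 * W)) - 2 * (X ^ 2 * W) ^ 2 * (1 - p * (X ^ 4 * W ^ 2)) *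
      (p ^ 2 - (1 - p) * (X ^ 2 * W)) ^ 2 - (X ^ 2 * W) ^ 3 *
      (p ^ 2 - (1 - p) * (X ^ 2 * W)) ^ 3) = p * FInt_S p X W := by
  unfold FInt_S
  linear_combination (-(X ^ 2 * (1 - X ^ 2 * W - 2 * (X ^ 2 * W) ^ 2 - (X ^ 2 * W) ^ 3 +
    X * W))) * h2 - (- X ^ 2 + X ^ 2 * W - X ^ 3 * W + X ^ 4 * W - X ^ 4 * W ^ 2 +
    X ^ 5 * W ^ 2 + X ^ 6 * W ^ 2 + 2 * p * X ^ 6 * W ^ 2 + 2 * p ^ 2 * X ^ 6 * W ^ 2 -
    X ^ 6 * W ^ 3 + 2 * X ^ 7 * W ^ 3 + p * X ^ 7 * W ^ 4 - X ^ 8 * W ^ 3 -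
    p * X ^ 8 * W ^ 3 - p ^ 2 * X ^ 8 * W ^ 3 + p ^ 3 * X ^ 8 * W ^ 3 +
    p ^ 4 * X ^ 8 * W ^ 3 - X ^ 8 * W ^ 4 + X ^ 9 * W ^ 4 - p * X ^ 9 * W ^ 5 -
    2 * X ^ 10 * W ^ 4 - 4 * p * X ^ 10 * W ^ 4 - 2 * p ^ 2 * X ^ 10 * W ^ 4 +
    p ^ 3 * X ^ 10 * W ^ 4 - 2 * X ^ 12 * W ^ 5 - 2 * p * X ^ 12 * W ^ 5 -
    X ^ 14 * W ^ 6 + p * X ^ 14 * W ^ 6) * h1

private theorem FInt_all {L : Type} [Field L] {O : Subring L} {pi : L} (hp : pi ∈ O) :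
    In O (u1 pi) ∧ In O (R1 pi) ∧ In O (u2 pi) ∧ In O (FInt_S (C pi) X (w L)) := by
  have hC : In O (C pi) := In.C hp
  have hX : In O (X : L⟦X⟧) := In.X
  have hw : In O (w L) := In.w
  have h1 : In O (1 : L⟦X⟧) := In.one
  have h2 : In O (2 : L⟦X⟧) := In.ofNat 2
  have h3 : In O (3 : L⟦X⟧) := In.ofNat 3
  have h4 : In O (4 : L⟦X⟧) := In.ofNat 4
  have a1 : In O (u1 pi) := by
    unfold u1
    exact h1.sub (hC.mul ((hX.pow 4).mul (hw.pow 2)))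
  have ha : In O (X ^ 2 * w L) := (hX.pow 2).mul hw
  have a2 : In O (v1 pi) := by
    unfold v1
    exact (hC.pow 2).sub ((h1.sub hC).mul ha)
  have a3 : In O (rr pi) := by
    unfold rr
    exact (hC.sub (((h1.sub hC).pow 2).mul ha)).add ((hC.pow 2).mul (ha.pow 2))
  have a4 : In O (ss pi) := by
    unfold ss
    exact (((h1.sub hC).sub (hC.mul ha)).sub (hC.mul (ha.pow 2))).sub (ha.pow 3)
  have a5 : In O (R1 pi) := by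
    unfold R1
    exact a3.add (hX.mul a4)
  have a6 : In O (u2 pi) := by
    unfold u2
    exact (((a1.pow 3).sub ((ha.mul (a1.pow 2)).mul a2)).sub
      (((h2.mul (ha.pow 2)).mul a1).mul (a2.pow 2))).sub ((ha.pow 3).mul (a2.pow 3))
  refine ⟨a1, a5, a6, ?_⟩
  have m : ∀ {c : L⟦X⟧} (i j : ℕ), In O c → In O (c * X ^ i * w L ^ j) :=
    fun i j hc => (hc.mul (hX.pow i)).mul (hw.pow j)
  have m1 : ∀ {c : L⟦X⟧} (i : ℕ), In O c → In O (c * X ^ i * w L) :=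
    fun i hc => (hc.mul (hX.pow i)).mul hw
  unfold FInt_S
  refine In.add ?_ (m 14 6 ((h2.mul hC).sub h2))
  refine In.add ?_ ((hX.pow 12).mul (hw.pow 6))
  refine In.add ?_ (m 12 5 (h2.add (h3.mul hC)))
  refine In.add ?_ (m 10 5 hC)
  refine In.add ?_ (m 10 4 (h4.sub hC))
  refine In.add ?_ (m 9 5 (h2.sub hC))
  refine In.add ?_ (m 9 4 (h1.sub hC))
  refine In.add ?_ (m 8 4 ((h2.mul hC).sub h1))
  refine In.add ?_ (m 8 3 (h1.sub (h2.mul hC)))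
  refine In.sub ?_ (m 7 4 (hC.add h1))
  refine In.add ?_ (m 7 3 (h2.sub (h2.mul hC)))
  refine In.add ?_ (m 6 3 ((h2.mul hC).sub h3))
  refine In.add ?_ (m 6 2 (h1.sub (h3.mul hC)))
  refine In.add ?_ (m 5 2 (h1.sub hC))
  refine In.add ?_ (m 4 2 (hC.sub h2))
  refine In.add ?_ ((hX.pow 4).mul hw)
  refine In.add ?_ (m 3 2 (h2.sub hC))
  refine In.add ?_ (m1 3 (hC.sub h1))
  refine In.sub ?_ (m1 2 hC)
  refine In.add ?_ ((hC.sub h1).mul (hX.pow 2))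
  exact hX.mul hw

theorem tFInt : S_FInt := by
  intro L _ _ O pi hO
  obtain ⟨a1, a2, a3, a4⟩ := FInt_all (L := L) hO.pi_mem
  have hinv : In O (u2 pi)⁻¹ := a3.inv (u2_const pi)
  refine ⟨?_, ?_⟩
  · unfold FF
    exact (((In.X.mul In.w).mul a1).mul a2).mul hinv
  · have hid : X * w L * u1 pi * R1 pi - X ^ 2 * u2 pi = C pi * FInt_S (C pi) X (w L) := by
      have h := FInt_id (C pi) X (w L) (C_two hO.two) (w_eq L)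
      unfold u2 R1 rr ss u1 v1
      exact h
    refine inM_iff.2 ⟨FInt_S (C pi) X (w L) * (u2 pi)⁻¹, a4.mul hinv, ?_⟩
    have h1 := u2_inv pi
    unfold FF
    linear_combination (u2 pi)⁻¹ * hid + X ^ 2 * h1

end DI.F4
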