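import Pool.Agent.Lib.DI.F4.Spec

/-! DI, part F4, module FLog: `lg(FF) = pi lg`. -/

set_option autoImplicit false

namespace DI.F4

open PowerSeries

theorem tFLog (hStar : S_Star) (hGEq : S_GEq) (hFDer : S_FDer) : S_FLog := by
  intro L _ _ pi hpi
  have hp0 : pi ≠ 0 := by
    rintro rfl
    rw [zero_mul] at hpi
    exact two_ne_zero hpi.symm
  have hF0 := FF_const (L := L) pi
  have h1 := hStar L (FF pi) hF0
  obtain ⟨-, h2⟩ := hGEq L pi hpi
  rw [← h2] at h1
  have h3 := hFDer L pi hpi
  rw [h3] at h1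
  have hne1 : FF pi - 2 ≠ (0 : L⟦X⟧) := by
    intro h
    have h4 := congrArg constantCoeff h
    rw [map_sub, hF0, map_ofNat, map_zero, zero_sub] at h4
    exact two_ne_zero (neg_eq_zero.1 h4)
  have hne2 : GG pi ≠ (0 : L⟦X⟧) := by
    intro h
    have h4 := GG_u2 (L := L) pi
    rw [h, zero_mul] at h4
    have hv : v1 pi ≠ (0 : L⟦X⟧) := by
      intro h5
      have h6 := congrArg constantCoeff h5
      simp [v1] at h6
      exact hp0 h6
    have hR : R1 pi ≠ (0 : L⟦X⟧) := by
      intro h5
      have h6 := congrArg constantCoeff h5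
      simp [R1, rr] at h6
      exact hp0 h6
    have hw : w L ≠ (0 : L⟦X⟧) := by
      intro h5
      have h6 := congrArg constantCoeff h5
      rw [w_const, map_zero] at h6
      exact one_ne_zero h6
    have hX : (X : L⟦X⟧) ≠ 0 := X_ne_zero
    exact mul_ne_zero (mul_ne_zero (mul_ne_zero (pow_ne_zero 3 hX) hv) hR) (pow_ne_zero 2 hw) h4.symm
  have h5 : cs (om L) (FF pi) * derivative L (FF pi) = C pi * om L := by
    have h6 : (FF pi - 2) * GG pi * (cs (om L) (FF pi) * derivative L (FF pi)) =
        (FF pi - 2) * GG pi * (C pi * om L) := by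
      rw [← h1]
      ring
    exact mul_left_cancel₀ (mul_ne_zero hne1 hne2) h6
  refine derivative.ext ?_ ?_
  · rw [d_cs hF0, d_lg, h5]
    have h6 : derivative L (C pi * lg L) = C pi * derivative L (lg L) := by
      rw [Derivation.leibniz]
      simp
    rw [h6, d_lg]
  · rw [constantCoeff_cs hF0, lg_const, map_mul, lg_const, mul_zero]

end DI.F4
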