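import Pool.Agent.Lib.DI.F4.Spec

/-!
# Theorem DI, part F4: squares modulo `pi`
-/

set_option autoImplicit false

namespace DI.F4

open PowerSeries

/-- A symmetric sum over the antidiagonal. -/
private theorem FrSq_sum {L : Type} [CommRing L] (a : ℕ → L) (m : ℕ) :
    ∑ p ∈ Finset.HasAntidiagonal.antidiagonal m, a p.1 * a p.2 =
      2 * (∑ p ∈ (Finset.HasAntidiagonal.antidiagonal m).filter (fun p => p.1 < p.2), a p.1 * a p.2) +
        ∑ p ∈ (Finset.HasAntidiagonal.antidiagonal m).filter (fun p => p.1 = p.2), a p.1 * a p.2 := by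
  have h1 : ∑ p ∈ (Finset.HasAntidiagonal.antidiagonal m).filter (fun p => p.2 < p.1), a p.1 * a p.2 =
      ∑ p ∈ (Finset.HasAntidiagonal.antidiagonal m).filter (fun p => p.1 < p.2), a p.1 * a p.2 := by
    refine Finset.sum_nbij' Prod.swap Prod.swap ?_ ?_ ?_ ?_ ?_
    · intro p hp
      rw [Finset.mem_filter, Finset.HasAntidiagonal.mem_antidiagonal] at hp ⊢
      exact ⟨by rw [← hp.1, Prod.fst_swap, Prod.snd_swap, add_comm], hp.2⟩
    · intro p hp
      rw [Finset.mem_filter, Finset.HasAntidiagonal.mem_antidiagonal] at hp ⊢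
      exact ⟨by rw [← hp.1, Prod.fst_swap, Prod.snd_swap, add_comm], hp.2⟩
    · intro p _
      exact Prod.swap_swap p
    · intro p _
      exact Prod.swap_swap p
    · intro p _
      rw [Prod.fst_swap, Prod.snd_swap, mul_comm]
  have h2 : ∑ p ∈ (Finset.HasAntidiagonal.antidiagonal m).filter (fun p => ¬ p.1 < p.2), a p.1 * a p.2 =
      (∑ p ∈ (Finset.HasAntidiagonal.antidiagonal m).filter (fun p => p.2 < p.1), a p.1 * a p.2) +
        ∑ p ∈ (Finset.HasAntidiagonal.antidiagonal m).filter (fun p => p.1 = p.2), a p.1 * a p.2 := by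
    rw [← Finset.sum_union]
    · refine Finset.sum_congr ?_ fun _ _ => rfl
      ext p
      simp only [Finset.mem_union, Finset.mem_filter]
      constructor
      · rintro ⟨h3, h4⟩
        rcases lt_or_eq_of_le (not_lt.1 h4) with h5 | h5
        · exact Or.inl ⟨h3, h5⟩
        · exact Or.inr ⟨h3, h5.symm⟩
      · rintro (⟨h3, h4⟩ | ⟨h3, h4⟩)
        · exact ⟨h3, not_lt.2 h4.le⟩
        · exact ⟨h3, not_lt.2 h4.ge⟩
    · rw [Finset.disjoint_left]
      intro p h3 h4
      rw [Finset.mem_filter] at h3 h4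
      exact absurd h4.2 (ne_of_gt h3.2)
  rw [← Finset.sum_filter_add_sum_filter_not _ (fun p : ℕ × ℕ => p.1 < p.2), h2, h1]
  ring

theorem tFrSq : S_FrSq := by
  intro L _ _ O pi hO Fr hFr g hg m
  have hX : constantCoeff ((X : L⟦X⟧) ^ 2) = 0 := by
    rw [map_pow, constantCoeff_X, zero_pow (by norm_num)]
  have h1p : 1 - pi ∈ O := O.sub_mem O.one_mem hO.pi_mem
  obtain ⟨A, hA⟩ : ∃ A, A = ∑ p ∈ (Finset.HasAntidiagonal.antidiagonal m).filter (fun p => p.1 < p.2),
    coeff p.1 g * coeff p.2 g := ⟨_, rfl⟩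
  have hAO : A ∈ O := by
    rw [hA]
    exact O.sum_mem fun p _ => O.mul_mem (hg _) (hg _)
  have e1 : coeff m (g ^ 2) = 2 * A +
      ∑ p ∈ (Finset.HasAntidiagonal.antidiagonal m).filter (fun p => p.1 = p.2), coeff p.1 g * coeff p.2 g := by
    rw [pow_two, coeff_mul, FrSq_sum (fun i => coeff i g) m, hA]
  rw [map_sub, e1, coeff_cs hX]
  by_cases hm : ∃ k, m = 2 * k
  · obtain ⟨k, rfl⟩ := hm
    obtain ⟨b, hb, hFb⟩ := hFr _ (hg k)
    refine ⟨(1 - pi) * A - b, O.sub_mem (O.mul_mem h1p hAO) hb, ?_⟩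
    have e2 : (Finset.HasAntidiagonal.antidiagonal (2 * k)).filter (fun p => p.1 = p.2) = {(k, k)} := by
      ext p
      rw [Finset.mem_filter, Finset.HasAntidiagonal.mem_antidiagonal, Finset.mem_singleton, Prod.ext_iff]
      constructor
      · rintro ⟨h3, h4⟩
        exact ⟨by omega, by omega⟩
      · rintro ⟨h3, h4⟩
        exact ⟨by omega, by omega⟩
    have e3 : ∑ d ∈ Finset.range (2 * k + 1), coeff d (map Fr g) * coeff (2 * k) ((X ^ 2) ^ d) =
        Fr (coeff k g) := by
      rw [Finset.sum_eq_single k]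
      · rw [← pow_mul, coeff_X_pow_self, mul_one, coeff_map]
      · intro d _ hd
        rw [← pow_mul, coeff_X_pow, if_neg (by omega), mul_zero]
      · intro h
        exact absurd (Finset.mem_range.2 (by omega)) h
    rw [e2, e3, Finset.sum_singleton, hFb]
    linear_combination (-A) * hO.two
  · refine ⟨(1 - pi) * A, O.mul_mem h1p hAO, ?_⟩
    have e2 : (Finset.HasAntidiagonal.antidiagonal m).filter (fun p => p.1 = p.2) = ∅ := by
      rw [Finset.filter_eq_empty_iff]
      intro p hp h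
      rw [Finset.HasAntidiagonal.mem_antidiagonal] at hp
      exact hm ⟨p.1, by omega⟩
    have e3 : ∑ d ∈ Finset.range (m + 1), coeff d (map Fr g) * coeff m ((X ^ 2) ^ d) = 0 := by
      refine Finset.sum_eq_zero fun d _ => ?_
      rw [← pow_mul, coeff_X_pow, if_neg (fun h => hm ⟨d, h⟩), mul_zero]
    rw [e2, e3, Finset.sum_empty]
    linear_combination (-A) * hO.two

end DI.F4
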