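import Pool.Agent.Lib.DI.F4.Spec

/-!
# Theorem DI, part F4: multiplication by `pi`, the equation (helper11)
-/

set_option autoImplicit false

namespace DI.F4

open PowerSeries

private theorem GEq_weq {L : Type} [Field L] (pi : L) (h : pi * (1 - pi) = 2) :
    WEq (FF pi) (GG pi) := by
  have hf := FF_u2 pi
  have hg := GG_u2 pi
  have hv := v1_u2 pi h
  have hu : u2 pi ≠ 0 := by
    intro h0
    have h1 := u2_const pi
    rw [h0, map_zero] at h1
    exact zero_ne_one h1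
  have hd : u2 pi = u1 pi ^ 3 - (X ^ 2 * w L) * u1 pi ^ 2 * v1 pi -
      2 * (X ^ 2 * w L) ^ 2 * u1 pi * v1 pi ^ 2 - (X ^ 2 * w L) ^ 3 * v1 pi ^ 3 := rfl
  unfold WEq
  refine mul_left_cancel₀ (pow_ne_zero 3 hu) ?_
  have e1 : u2 pi ^ 3 * (FF pi ^ 3 + FF pi * GG pi - FF pi ^ 2 * GG pi -
      2 * (FF pi * GG pi ^ 2) - GG pi ^ 3) =
      (FF pi * u2 pi) ^ 3 + (FF pi * u2 pi) * (GG pi * u2 pi) * u2 pi -
        (FF pi * u2 pi) ^ 2 * (GG pi * u2 pi) - 2 * ((FF pi * u2 pi) * (GG pi * u2 pi) ^ 2) -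
        (GG pi * u2 pi) ^ 3 := by ring
  have e2 : u2 pi ^ 3 * GG pi = (GG pi * u2 pi) * u2 pi ^ 2 := by ring
  rw [e1, e2, hf, hg]
  generalize u2 pi = u at *
  generalize u1 pi = a at *
  generalize v1 pi = b at *
  generalize R1 pi = r at *
  generalize w L = z at *
  linear_combination (u * X ^ 3 * r * z ^ 2) * hv + (X * z * r) ^ 3 * hd

theorem tGEq (hWSol : S_WSol) : S_GEq := by
  intro L _ _ pi h
  have key := GEq_weq pi h
  obtain ⟨s1, s2⟩ := hWSol L (FF pi) (FF_const pi)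
  refine ⟨key, s2 _ _ (GG_const pi) ?_ key s1⟩
  rw [map_mul, map_pow, FF_const, zero_pow (by norm_num), zero_mul]

end DI.F4
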