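import Pool.Agent.Lib.DI.F4.Spec

/-!
# Theorem DI, part F4, module Honda: Honda integrality
-/

set_option autoImplicit false

namespace DI.F4

open PowerSeries

private theorem Honda_coeff_one_mul {L : Type} [Field L] (f g : L⟦X⟧) (hf : constantCoeff f = 0)
    (hg : constantCoeff g = 1) : coeff 1 (f * g) = coeff 1 f := by
  obtain ⟨b, rfl⟩ := (X_dvd_iff).2 hf
  rw [mul_assoc, ← zero_add 1, coeff_succ_X_mul, coeff_succ_X_mul, coeff_zero_eq_constantCoeff_apply,
    coeff_zero_eq_constantCoeff_apply, map_mul, hg, mul_one]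

private theorem Honda_coeff_one_FF {L : Type} [Field L] (pi : L) : coeff 1 (FF pi) = pi := by
  have h := congrArg (coeff 1) (FF_u2 pi)
  rw [Honda_coeff_one_mul _ _ (FF_const pi) (u2_const pi)] at h
  rw [h, mul_assoc, mul_assoc, ← zero_add 1, coeff_succ_X_mul, coeff_zero_eq_constantCoeff_apply]
  simp [w_const, u1, R1, rr, ss]

/-- the truncation of `g` -/
private noncomputable def Honda_tr {L : Type} [Field L] (n : ℕ) (g : L⟦X⟧) : L⟦X⟧ :=
  mk fun i => if i < n then coeff i g else 0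

private theorem Honda_tr_lt {L : Type} [Field L] {n i : ℕ} (h : i < n) (g : L⟦X⟧) :
    coeff i (Honda_tr n g) = coeff i g := by
  rw [Honda_tr, coeff_mk, if_pos h]

private theorem Honda_tr_self {L : Type} [Field L] (n : ℕ) (g : L⟦X⟧) :
    coeff n (Honda_tr n g) = 0 := by
  rw [Honda_tr, coeff_mk, if_neg (lt_irrefl n)]

theorem tHonda (hFLog : S_FLog) (hFInt : S_FInt) (hLgC : S_LgC) (hSubN : S_SubN)
    (hFrSq : S_FrSq) : S_Honda := by
  intro L _ _ O pi hO Fr hFr _ u hu hρ
  have hpi : pi ≠ 0 := by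
    intro h
    have h2 := hO.two
    rw [h, zero_mul] at h2
    exact two_ne_zero h2.symm
  have hX2 : constantCoeff ((X : L⟦X⟧) ^ 2) = 0 := by
    rw [map_pow, constantCoeff_X, zero_pow (by norm_num)]
  have hFrO : ∀ a ∈ O, Fr a ∈ O := by
    intro a ha
    obtain ⟨b, hb, h⟩ := hFr a ha
    rw [h]
    exact O.add_mem (O.pow_mem ha 2) (O.mul_mem hO.pi_mem hb)
  obtain ⟨g, hg⟩ : ∃ g, g = Tof u := ⟨_, rfl⟩
  have hg0 : constantCoeff g = 0 := by rw [hg, Tof_const hu]
  have hlg : cs (lg L) g = u := by rw [hg, lg_Tof hu]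
  have hFrg0 : constantCoeff (map Fr g) = 0 := by rw [cc_map, hg0, map_zero]
  -- (1), (2)
  have e1 : cs (lg L) (cs (FF pi) g) = C pi * u := by
    rw [← cs_cs (FF_const pi) hg0, hFLog L pi hO.two, cs_smul hg0, hlg]
  have e2 : cs (lg L) (cs (map Fr g) (X ^ 2)) = cs (map Fr u) (X ^ 2) := by
    rw [← cs_cs hFrg0 hX2, ← hlg, map_cs Fr hg0, map_lg]
  have e3 : C pi * (u - C pi⁻¹ * cs (map Fr u) (X ^ 2)) =
      cs (lg L) (cs (FF pi) g) - cs (lg L) (cs (map Fr g) (X ^ 2)) := by
    rw [e1, e2, mul_sub, ← mul_assoc, ← map_mul, mul_inv_cancel₀ hpi, map_one, one_mul]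
  rw [← hg]
  intro n
  induction n using Nat.strong_induction_on with
  | _ n ih =>
    rcases Nat.eq_zero_or_pos n with hn | hn
    · rw [hn, coeff_zero_eq_constantCoeff_apply, hg0]
      exact O.zero_mem
    -- the truncation
    have hgn : In O (Honda_tr n g) := by
      intro i
      rw [Honda_tr, coeff_mk]
      split_ifs with hi
      · exact ih i hi
      · exact O.zero_mem
    have hgn0 : constantCoeff (Honda_tr n g) = 0 := by
      rw [← coeff_zero_eq_constantCoeff_apply, Honda_tr_lt hn, coeff_zero_eq_constantCoeff_apply,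
        hg0]
    have hFrgn0 : constantCoeff (map Fr (Honda_tr n g)) = 0 := by rw [cc_map, hgn0, map_zero]
    -- (3) the argument FF
    obtain ⟨s1, s2⟩ := hSubN L (FF pi) g (Honda_tr n g) n hn hg0 hgn0
      (fun i hi => (Honda_tr_lt hi g).symm)
    rw [Honda_tr_self, sub_zero, Honda_coeff_one_FF] at s2
    obtain ⟨-, s3⟩ := hSubN L (lg L) (cs (FF pi) g) (cs (FF pi) (Honda_tr n g)) n hn
      (by rw [constantCoeff_cs hg0, FF_const]) (by rw [constantCoeff_cs hgn0, FF_const]) s1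
    rw [s2, coeff_one_lg, one_mul] at s3
    -- the argument h
    have s4 : ∀ i, i ≤ n → coeff i (cs (map Fr g) (X ^ 2)) =
        coeff i (cs (map Fr (Honda_tr n g)) (X ^ 2)) := by
      intro i hi
      unfold cs
      rw [coeff_subst_X_pow two_ne_zero, coeff_subst_X_pow two_ne_zero, coeff_map, coeff_map,
        Honda_tr_lt (by omega)]
    obtain ⟨-, s5⟩ := hSubN L (lg L) (cs (map Fr g) (X ^ 2)) (cs (map Fr (Honda_tr n g)) (X ^ 2))
      n hn (by rw [constantCoeff_cs hX2, hFrg0]) (by rw [constantCoeff_cs hX2, hFrgn0])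
      (fun i hi => s4 i hi.le)
    rw [s4 n le_rfl, sub_self, mul_zero] at s5
    -- (4)
    have hF := hFInt L O pi hO
    have t1 : InM O pi (cs (FF pi) (Honda_tr n g) - Honda_tr n g ^ 2) := by
      have h := hF.2.cs hgn hgn0
      rwa [cs_sub hgn0, cs_pow hgn0, cs_X hgn0] at h
    have t2 := t1.add (hFrSq L O pi hO Fr hFr _ hgn)
    rw [sub_add_sub_cancel] at t2
    have hIX : In O ((X : L⟦X⟧) ^ 2) := In.X.pow 2
    have t3 := hLgC L O pi hO _ _ (hF.1.cs hgn hgn0) ((hgn.map hFrO).cs hIX hX2)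
      (by rw [constantCoeff_cs hgn0, FF_const]) (by rw [constantCoeff_cs hX2, hFrgn0]) t2 n
    obtain ⟨a, ha, t4⟩ := t3
    -- (5)
    have t5 : pi * coeff n (u - C pi⁻¹ * cs (map Fr u) (X ^ 2)) =
        coeff n (cs (lg L) (cs (FF pi) g)) - coeff n (cs (lg L) (cs (map Fr g) (X ^ 2))) := by
      rw [← coeff_C_mul, e3, map_sub]
    rw [map_sub] at t4
    have t6 : coeff n g = coeff n (u - C pi⁻¹ * cs (map Fr u) (X ^ 2)) - a := by
      apply mul_left_cancel₀ hpi
      linear_combination (-1 : L) * s3 + s5 - t5 - t4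
    rw [t6]
    exact O.sub_mem (hρ n) ha

end DI.F4
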