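import Pool.Agent.Lib.DI.F4.Spec

/-!
# Theorem DI, part F4: identification of the analytic series
-/

set_option autoImplicit false

namespace DI.F4

open PowerSeries

theorem tIdent (hWSol : S_WSol) (hStar : S_Star) : S_Ident := by
  intro L _ _ T W u hT hW hu hT0 hE hD
  obtain ⟨h1, h2⟩ := hWSol L T hT
  have hc : constantCoeff (T ^ 3 * cs (w L) T) = 0 := by
    rw [map_mul, map_pow, hT, zero_pow (by norm_num), zero_mul]
  have hWe : W = T ^ 3 * cs (w L) T := h2 W _ hW hc hE h1
  have hS := hStar L T hT
  rw [← hWe] at hS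
  have hw : constantCoeff (cs (w L) T) = 1 := by
    rw [constantCoeff_cs hT, w_const]
  have hw0 : cs (w L) T ≠ 0 := by
    intro h
    rw [h, map_zero] at hw
    exact zero_ne_one hw
  have hW0 : W ≠ 0 := by
    rw [hWe]
    exact mul_ne_zero (pow_ne_zero 3 hT0) hw0
  have hT2 : T - 2 ≠ 0 := by
    intro h
    have h3 := congrArg constantCoeff h
    rw [map_sub, hT, map_zero, map_ofNat, zero_sub, neg_eq_zero] at h3
    exact two_ne_zero h3
  have hd : derivative L u = cs (om L) T * derivative L T := by
    have h3 : (T - 2) * W * derivative L u = (T - 2) * W * (cs (om L) T * derivative L T) := by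
      rw [← hD, ← hS]
    exact mul_left_cancel₀ (mul_ne_zero hT2 hW0) h3
  have hlg : cs (lg L) T = u := by
    refine derivative.ext ?_ ?_
    · rw [d_cs hT, d_lg, hd]
    · rw [constantCoeff_cs hT, lg_const, hu]
  exact ⟨eq_Tof hT hlg, hWe⟩

end DI.F4
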