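import Pool.Agent.Lib.DI.F4.Spec

/-!
# Theorem DI, part F4, module LgC: the logarithm of congruent series
-/

set_option autoImplicit false

namespace DI.F4

open PowerSeries

theorem tLgC (hPowD : S_PowD) : S_LgC := by
  intro L _ _ O pi hO A B hA hB hA0 hB0 hAB n
  rw [map_sub, coeff_cs hA0, coeff_cs hB0, ← Finset.sum_sub_distrib]
  refine Finset.sum_induction _ (fun x : L => ∃ a ∈ O, x = pi * a) ?_ ?_ ?_
  · rintro x y ⟨a, ha, rfl⟩ ⟨b, hb, rfl⟩
    exact ⟨a + b, O.add_mem ha hb, by ring⟩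
  · exact ⟨0, O.zero_mem, by ring⟩
  · intro d _
    rcases Nat.eq_zero_or_pos d with rfl | hd
    · exact ⟨0, O.zero_mem, by rw [pow_zero, pow_zero]; ring⟩
    · obtain ⟨a, ha, h1⟩ := hPowD L O pi hO A B hA hB hAB d hd n
      refine ⟨coeff (d - 1) (om L) * a, O.mul_mem (In.om _) ha, ?_⟩
      have h2 : coeff d (lg L) = coeff (d - 1) (om L) / d := by
        rw [lg, coeff_mk]
      have h3 : (d : L) ≠ 0 := by
        exact_mod_cast hd.ne'
      rw [← mul_sub, ← map_sub, h1, h2]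
      field_simp

end DI.F4
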