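import Pool.Agent.Lib.DI.F4.Spec

/-!
# Theorem DI, part F4: powers of congruent series
-/

set_option autoImplicit false

namespace DI.F4

open PowerSeries

private theorem PowD_div {L : Type} [Field L] [CharZero L] {O : Subring L} {pi : L}
    (h : OK O pi) (k : ℕ) : pi ^ k / ((k : L) + 1) ∈ O := by
  obtain ⟨a, m, hm, hk⟩ := Nat.exists_eq_two_pow_mul_odd (Nat.succ_ne_zero k)
  have ha : a ≤ k := by
    have h1 : a < 2 ^ a := Nat.lt_two_pow_self
    have h2 : 2 ^ a ≤ k.succ := by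
      rw [hk]
      exact Nat.le_mul_of_pos_right _ hm.pos
    omega
  have h20 : (2 : L) ≠ 0 := two_ne_zero
  have hp0 : pi ≠ 0 := by
    intro h0
    apply h20
    rw [← h.two, h0, zero_mul]
  have hq0 : 1 - pi ≠ 0 := by
    intro h0
    apply h20
    rw [← h.two, h0, mul_zero]
  have hm0 : (m : L) ≠ 0 := by
    exact_mod_cast hm.pos.ne'
  have hk1 : (k : L) + 1 = (pi * (1 - pi)) ^ a * m := by
    rw [h.two]
    exact_mod_cast hk
  have hkey : pi ^ k / ((k : L) + 1) = pi ^ (k - a) * (((1 - pi)⁻¹) ^ a * (m : L)⁻¹) := by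
    rw [hk1, mul_pow]
    have h3 : pi ^ k = pi ^ (k - a) * pi ^ a := by
      rw [← pow_add, Nat.sub_add_cancel ha]
    rw [h3]
    have hpa : pi ^ a ≠ 0 := pow_ne_zero _ hp0
    have hqa : (1 - pi) ^ a ≠ 0 := pow_ne_zero _ hq0
    rw [inv_pow]
    field_simp
  rw [hkey]
  exact O.mul_mem (pow_mem h.pi_mem _) (O.mul_mem (pow_mem h.inv _) (h.odd m hm))

private theorem PowD_sum {L : Type} [Field L] {O : Subring L} {c : L} (s : Finset ℕ)
    (F : ℕ → L⟦X⟧) (h : ∀ i ∈ s, InM O c (F i)) : InM O c (∑ i ∈ s, F i) := by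
  classical
  induction s using Finset.induction_on with
  | empty =>
    rw [Finset.sum_empty]
    exact InM.zero
  | insert i s hi ih =>
    rw [Finset.sum_insert hi]
    exact (h i (Finset.mem_insert_self i s)).add
      (ih fun j hj => h j (Finset.mem_insert_of_mem hj))

theorem tPowD : S_PowD := by
  intro L _ _ O pi hOK A B _ hB hAB d hd
  obtain ⟨D, hD, hABD⟩ := inM_iff.1 hAB
  obtain ⟨n, rfl⟩ : ∃ n, d = n + 1 := ⟨d - 1, by omega⟩
  have hA : A = C pi * D + B := by
    rw [← hABD]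
    ring
  have h1 : A ^ (n + 1) - B ^ (n + 1) = ∑ k ∈ Finset.range (n + 1),
      (C pi * D) ^ (k + 1) * B ^ (n + 1 - (k + 1)) * ((n + 1).choose (k + 1) : L⟦X⟧) := by
    rw [hA, add_pow, Finset.sum_range_succ', pow_zero, Nat.sub_zero, Nat.choose_zero_right,
      Nat.cast_one, one_mul, mul_one, add_sub_cancel_right]
  rw [h1]
  refine PowD_sum _ _ fun k _ => inM_iff.2
    ⟨C (pi ^ k / ((k : L) + 1)) * ((n.choose k : L⟦X⟧) * (D ^ (k + 1) * B ^ (n + 1 - (k + 1)))),
      (In.C (PowD_div hOK k)).mul ((In.natCast _).mul ((hD.pow _).mul (hB.pow _))), ?_⟩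
  have hk0 : ((k : L) + 1) ≠ 0 := by exact_mod_cast Nat.succ_ne_zero k
  have h2 : ((n + 1).choose (k + 1) : L) * pi ^ (k + 1) =
      (((n + 1 : ℕ) : L) * pi) * (pi ^ k / ((k : L) + 1)) * (n.choose k : L) := by
    have h3 : ((n : L) + 1) * (n.choose k : L) = ((n + 1).choose (k + 1) : L) * ((k : L) + 1) := by
      exact_mod_cast Nat.add_one_mul_choose_eq n k
    push_cast
    rw [pow_succ]
    field_simp
    linear_combination (-(pi * pi ^ k)) * h3
  have h4 : (C (R := L)) ((n + 1).choose (k + 1) : L) * C pi ^ (k + 1) =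
      C (((n + 1 : ℕ) : L) * pi) * C (pi ^ k / ((k : L) + 1)) * C (n.choose k : L) := by
    rw [← map_pow, ← map_mul, ← map_mul, ← map_mul, h2]
  rw [map_natCast, map_natCast] at h4
  rw [mul_pow]
  linear_combination (D ^ (k + 1) * B ^ (n + 1 - (k + 1))) * h4

end DI.F4
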