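import Pool.Agent.Lib.DI.F4.Spec

/-!
# Theorem DI, part F6: series in characteristic `2`
-/

set_option autoImplicit false

namespace DI.F4

open PowerSeries

/-- **Res.** -/
theorem tRes : S_Res := by
  intro F _ _ T W hT hT1 hW0 hW
  have h2 : (2 : F⟦X⟧) = 0 := by
    have : (C (2 : F) : F⟦X⟧) = 2 := map_ofNat _ 2
    rw [← this, CharTwo.two_eq_zero, map_zero]
  have hT0 : T ≠ 0 := by
    intro h
    rw [h, map_zero] at hT1
    exact hT1 rfl
  have hU : (1 + T + T ^ 2 + W ^ 2) * W = T ^ 3 := by
    unfold WEq at hW
    linear_combination hW + (T * W - T * W ^ 2) * h2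
  have hW' : W ≠ 0 := by
    intro h
    rw [h, mul_zero] at hU
    exact hT0 (pow_eq_zero_iff (n := 3) (by norm_num) |>.1 hU.symm)
  have hdT : derivative F T ≠ 0 := by
    intro h
    have h1 := coeff_derivative T 0
    rw [h, map_zero, Nat.cast_zero, zero_add, zero_add, mul_one] at h1
    exact hT1 h1.symm
  refine ⟨hW', fun heq => ?_⟩
  have hd := congrArg (derivative F) hU
  simp only [Derivation.leibniz, Derivation.leibniz_pow, map_add, Derivation.map_one_eq_zero,
    smul_eq_mul, nsmul_eq_mul] at hd
  have key : T * derivative F T * W = 0 := by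
    push_cast at hd
    linear_combination T * hd - (1 + T + T ^ 2 + W ^ 2) * heq - derivative F T * hU +
      (T ^ 3 * derivative F T - T ^ 2 * derivative F T * W - T * W ^ 2 * derivative F W) * h2
  rcases mul_eq_zero.1 key with h | h
  · rcases mul_eq_zero.1 h with h | h
    · exact hT0 h
    · exact hdT h
  · exact hW' h

end DI.F4
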