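import Pool.Agent.Lib.DI.F4.Spec

/-!
# Theorem DI, part F4, module Star: the invariant differential
-/

set_option autoImplicit false

namespace DI.F4

open PowerSeries

theorem tStar (hWDer : S_WDer) : S_Star := by
  intro R _ T hT
  have h1 := congrArg (fun f => cs f T) (hWDer R)
  simp only [cs_add hT, cs_mul hT, cs_sub hT, cs_X hT] at h1
  have h0 : cs (2 : R⟦X⟧) T = 2 := cs_ofNat T 2
  rw [h0] at h1
  have h2 : derivative R (T ^ 3 * cs (w R) T) =
      3 * T ^ 2 * derivative R T * cs (w R) T +
        T ^ 3 * (cs (derivative R (w R)) T * derivative R T) := by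
    rw [Derivation.leibniz, Derivation.leibniz_pow, d_cs hT]
    simp only [smul_eq_mul, nsmul_eq_mul]
    push_cast
    ring
  rw [h2]
  linear_combination (-(derivative R T * T ^ 3)) * h1

end DI.F4
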