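import Pool.Agent.Lib.DI.F4.Spec

/-!
# Theorem DI, part F4: first order congruences of compositions
-/

set_option autoImplicit false

namespace DI.F4

open PowerSeries

private theorem SubN_pow {L : Type} [Field L] {A B : L⟦X⟧} {n : ℕ} (hA : constantCoeff A = 0)
    (hB : constantCoeff B = 0) (h : (X : L⟦X⟧) ^ n ∣ A - B) (d : ℕ) :
    (X : L⟦X⟧) ^ (n + 1) ∣ A ^ (d + 2) - B ^ (d + 2) := by
  have e : A ^ (d + 2) - B ^ (d + 2) =
      (A ^ (d + 1) - B ^ (d + 1)) * A + (A - B) * B ^ (d + 1) := by ring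
  rw [e, pow_succ]
  refine dvd_add (mul_dvd_mul (h.trans (sub_dvd_pow_sub_pow A B (d + 1))) (X_dvd_iff.2 hA))
    (mul_dvd_mul h ?_)
  rw [X_dvd_iff, map_pow, hB, zero_pow (by omega)]

theorem tSubN : S_SubN := by
  intro L _ f A B n hn hA hB hAB
  have h1 : (X : L⟦X⟧) ^ n ∣ A - B := by
    rw [X_pow_dvd_iff]
    intro m hm
    rw [map_sub, hAB m hm, sub_self]
  have h2 : ∀ d e : ℕ, d ≠ 1 → e ≤ n → coeff e (A ^ d) = coeff e (B ^ d) := by
    intro d e hd he
    rcases d with _ | _ | d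
    · rw [pow_zero, pow_zero]
    · exact absurd rfl hd
    · have h3 := (X_pow_dvd_iff).1 (SubN_pow hA hB h1 d) e (by omega)
      rw [map_sub, sub_eq_zero] at h3
      exact h3
  constructor
  · intro i hi
    rw [coeff_cs hA, coeff_cs hB]
    refine Finset.sum_congr rfl fun d _ => ?_
    by_cases hd : d = 1
    · subst hd
      rw [pow_one, pow_one, hAB i hi]
    · rw [h2 d i hd hi.le]
  · rw [coeff_cs hA, coeff_cs hB, ← Finset.sum_sub_distrib, Finset.sum_eq_single 1]
    · rw [pow_one, pow_one, mul_sub]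
    · intro d _ hd
      rw [h2 d n hd le_rfl, sub_self]
    · intro h
      exact absurd (Finset.mem_range.2 (by omega)) h

end DI.F4
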