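import Pool.Agent.Lib.DI.F4.Spec

set_option autoImplicit false

namespace DI.F4

open PowerSeries

theorem WDer_eq (R : Type) [CommRing R] :
    derivative R (w R) = w R + X * derivative R (w R) - 2 * X * w R - X ^ 2 * derivative R (w R) -
      (8 * X ^ 3 * w R ^ 2 + 4 * X ^ 4 * w R * derivative R (w R)) -
      (6 * X ^ 5 * w R ^ 3 + 3 * X ^ 6 * w R ^ 2 * derivative R (w R)) := by
  have h1 := congrArg (derivative R) (w_eq R)
  rw [two_mul] at h1
  simp only [map_sub, map_add, Derivation.leibniz, Derivation.leibniz_pow, Derivation.map_one_eq_zero,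
    smul_eq_mul, nsmul_eq_mul] at h1
  have hX : derivative R (X : R⟦X⟧) = 1 := derivative_X
  rw [hX] at h1
  refine h1.trans ?_
  push_cast
  ring

theorem tWDer : S_WDer := by
  intro R _
  have h1 := WDer_eq R
  have h2 := P_om R
  have h3 := P_eq R
  have h4 : (2 * w R + X * derivative R (w R)) * P R = w R * (2 - X) := by
    rw [h3]
    linear_combination X * h1
  linear_combination (-(2 * w R + X * derivative R (w R))) * h2 + om R * h4

end DI.F4
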