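import Pool.Agent.Lib.DI.F4.WSol
import Pool.Agent.Lib.DI.F4.WDer
import Pool.Agent.Lib.DI.F4.Star
import Pool.Agent.Lib.DI.F4.GEq
import Pool.Agent.Lib.DI.F4.FDer
import Pool.Agent.Lib.DI.F4.FLog
import Pool.Agent.Lib.DI.F4.FInt
import Pool.Agent.Lib.DI.F4.PowD
import Pool.Agent.Lib.DI.F4.LgC
import Pool.Agent.Lib.DI.F4.SubN
import Pool.Agent.Lib.DI.F4.FrSq
import Pool.Agent.Lib.DI.F4.Honda
import Pool.Agent.Lib.DI.F4.Ident
import Pool.Agent.Lib.DI.F4.DisV
import Pool.Agent.Lib.DI.F4.NormQ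
import Pool.Agent.Lib.DI.F4.Res
import Pool.Agent.Lib.DI.F4.Contra
import Pool.Agent.Lib.DI.F4.F6

/-! Theorem DI, parts F4 and F6: assembly. -/

set_option autoImplicit false

namespace DI.F4

theorem aWSol : S_WSol := tWSol
theorem aWDer : S_WDer := tWDer
theorem aStar : S_Star := tStar aWDer
theorem aGEq : S_GEq := tGEq aWSol
theorem aFLog : S_FLog := tFLog aStar aGEq (tFDer aWDer)
theorem aHonda : S_Honda := tHonda aFLog tFInt (tLgC tPowD) tSubN tFrSq
theorem aCon : S_Con := tCon aWSol tNormQ tRes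

/-- **F4 and F6.** -/
theorem aF6 : S_F6 := tF6 aHonda (tIdent aWSol aStar) tDisV aCon

end DI.F4
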