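import Pool.Agent.Lib.DI.F4.Defs

/-!
# Theorem DI, parts F4, F6: closure properties of integral series
-/

set_option autoImplicit false

namespace DI.F4

open PowerSeries

variable {L : Type} [Field L] {O : Subring L} {c : L} {f g : L⟦X⟧}

theorem In.add (hf : In O f) (hg : In O g) : In O (f + g) := fun n => by
  rw [map_add]
  exact O.add_mem (hf n) (hg n)

theorem In.neg (hf : In O f) : In O (-f) := fun n => by
  rw [map_neg]
  exact O.neg_mem (hf n)

theorem In.sub (hf : In O f) (hg : In O g) : In O (f - g) := fun n => by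
  rw [map_sub]
  exact O.sub_mem (hf n) (hg n)

theorem In.mul (hf : In O f) (hg : In O g) : In O (f * g) := fun n => by
  rw [coeff_mul]
  exact O.sum_mem fun p _ => O.mul_mem (hf _) (hg _)

theorem In.C {a : L} (ha : a ∈ O) : In O (PowerSeries.C a) := fun n => by
  rw [coeff_C]
  split_ifs
  · exact ha
  · exact O.zero_mem

theorem In.X : In O (PowerSeries.X : L⟦X⟧) := fun n => by
  rw [coeff_X]
  split_ifs
  · exact O.one_mem
  · exact O.zero_mem

theorem In.one : In O (1 : L⟦X⟧) := by
  rw [← map_one (PowerSeries.C (R := L))]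
  exact In.C O.one_mem

theorem In.zero : In O (0 : L⟦X⟧) := fun n => by
  rw [map_zero]
  exact O.zero_mem

theorem In.natCast (n : ℕ) : In O (n : L⟦X⟧) := by
  rw [← map_natCast (PowerSeries.C (R := L))]
  exact In.C (natCast_mem O n)

theorem In.ofNat (n : ℕ) [n.AtLeastTwo] : In O (OfNat.ofNat n : L⟦X⟧) := In.natCast n

theorem In.pow (hf : In O f) (n : ℕ) : In O (f ^ n) := by
  induction n with
  | zero =>
    rw [pow_zero]
    exact In.one
  | succ n ih =>
    rw [pow_succ]
    exact ih.mul hf

theorem In.map_int (f : ℤ⟦X⟧) : In O (PowerSeries.map (Int.castRingHom L) f) := fun n => by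
  rw [coeff_map]
  exact intCast_mem O _

theorem In.w : In O (w L) := In.map_int _

theorem In.P : In O (P L) := In.map_int _

theorem In.om : In O (om L) := In.map_int _

/-- composition -/
theorem In.cs (hf : In O f) (hg : In O g) (h0 : constantCoeff g = 0) : In O (cs f g) := fun n => by
  rw [coeff_cs h0]
  exact O.sum_mem fun d _ => O.mul_mem (hf d) ((hg.pow d) n)

/-- the inverse of a series with the constant coefficient `1` -/
theorem In.inv (hf : In O f) (h1 : constantCoeff f = 1) : In O f⁻¹ := by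
  intro n
  induction n using Nat.strong_induction_on with
  | _ n ih =>
    rw [coeff_inv, h1, inv_one]
    split_ifs with hn
    · exact O.one_mem
    · refine O.mul_mem (O.neg_mem O.one_mem) (O.sum_mem fun x _ => ?_)
      split_ifs with hx
      · exact O.mul_mem (hf _) (ih _ hx)
      · exact O.zero_mem

theorem In.map {O' : Subring L} {φ : L →+* L} (h : ∀ a ∈ O, φ a ∈ O') (hf : In O f) :
    In O' (PowerSeries.map φ f) := fun n => by
  rw [coeff_map]
  exact h _ (hf n)

theorem InM.zero : InM O c (0 : L⟦X⟧) := fun n => ⟨0, O.zero_mem, by rw [map_zero, mul_zero]⟩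

theorem InM.add (hf : InM O c f) (hg : InM O c g) : InM O c (f + g) := fun n => by
  obtain ⟨a, ha, h1⟩ := hf n
  obtain ⟨b, hb, h2⟩ := hg n
  exact ⟨a + b, O.add_mem ha hb, by rw [map_add, h1, h2, mul_add]⟩

theorem InM.neg (hf : InM O c f) : InM O c (-f) := fun n => by
  obtain ⟨a, ha, h1⟩ := hf n
  exact ⟨-a, O.neg_mem ha, by rw [map_neg, h1, mul_neg]⟩

theorem InM.sub (hf : InM O c f) (hg : InM O c g) : InM O c (f - g) := by
  rw [sub_eq_add_neg]
  exact hf.add hg.neg

/-- `c O⟦X⟧` = `{C c * g}` -/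
theorem inM_iff : InM O c f ↔ ∃ g, In O g ∧ f = PowerSeries.C c * g := by
  constructor
  · intro h
    choose a ha h1 using h
    refine ⟨PowerSeries.mk a, fun n => ?_, ?_⟩
    · rw [coeff_mk]
      exact ha n
    · ext n
      rw [coeff_C_mul, coeff_mk, h1]
  · rintro ⟨g, hg, rfl⟩ n
    exact ⟨coeff n g, hg n, coeff_C_mul _ _ _⟩

theorem InM.mul (hf : In O f) (hg : InM O c g) : InM O c (f * g) := by
  obtain ⟨h, hh, rfl⟩ := inM_iff.1 hg
  exact inM_iff.2 ⟨f * h, hf.mul hh, by ring⟩

/-- composition -/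
theorem InM.cs (hf : InM O c f) (hg : In O g) (h0 : constantCoeff g = 0) : InM O c (cs f g) := by
  obtain ⟨h, hh, rfl⟩ := inM_iff.1 hf
  exact inM_iff.2 ⟨DI.F4.cs h g, hh.cs hg h0, by rw [cs_mul h0, cs_C]⟩

end DI.F4
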