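import Mathlib

/-!
# Theorem DI, parts F4 (Honda integrality) and F6 (reduction): definitions and basic lemmas

Curve `E : y² + xy = x³ - x² - 2x - 1`, `T = -x/y`, `W = -1/y`, so `x = T/W`, `y = -1/W` and
`W = T³ + T W - T² W - 2 T W² - W³` (`WEq T W`).  `W = X³ w`, `w : ℤ⟦X⟧`.
-/

set_option autoImplicit false

namespace DI.F4

open PowerSeries

/-! ## Composition of power series -/

section comp

variable {R : Type} [CommRing R]

theorem cc_map {S : Type} [CommRing S] (φ : R →+* S) (f : R⟦X⟧) :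
    constantCoeff (map φ f) = φ (constantCoeff f) := by
  rw [← coeff_zero_eq_constantCoeff_apply, coeff_map, coeff_zero_eq_constantCoeff_apply]

/-- `f ∘ g`, for `constantCoeff g = 0` -/
noncomputable def cs (f g : R⟦X⟧) : R⟦X⟧ := f.subst g

variable {g : R⟦X⟧}

theorem hs (hg : constantCoeff g = 0) : HasSubst g := HasSubst.of_constantCoeff_zero' hg

theorem cs_add (hg : constantCoeff g = 0) (f f' : R⟦X⟧) : cs (f + f') g = cs f g + cs f' g :=
  subst_add (hs hg) f f'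

theorem cs_sub (hg : constantCoeff g = 0) (f f' : R⟦X⟧) : cs (f - f') g = cs f g - cs f' g :=
  subst_sub (hs hg) f f'

theorem cs_mul (hg : constantCoeff g = 0) (f f' : R⟦X⟧) : cs (f * f') g = cs f g * cs f' g :=
  subst_mul (hs hg) f f'

theorem cs_pow (hg : constantCoeff g = 0) (f : R⟦X⟧) (n : ℕ) : cs (f ^ n) g = cs f g ^ n :=
  subst_pow (hs hg) f n

theorem cs_X (hg : constantCoeff g = 0) : cs (X : R⟦X⟧) g = g := subst_X (hs hg)

theorem cs_C (g : R⟦X⟧) (r : R) : cs (C r) g = C r := subst_C r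

theorem cs_one (g : R⟦X⟧) : cs (1 : R⟦X⟧) g = 1 := by
  rw [← map_one (C (R := R)), cs_C]

theorem cs_zero (g : R⟦X⟧) : cs (0 : R⟦X⟧) g = 0 := by
  rw [← map_zero (C (R := R)), cs_C]

theorem cs_natCast (g : R⟦X⟧) (n : ℕ) : cs (n : R⟦X⟧) g = n := by
  rw [← map_natCast (C (R := R)), cs_C]

theorem cs_ofNat (g : R⟦X⟧) (n : ℕ) [n.AtLeastTwo] : cs (OfNat.ofNat n : R⟦X⟧) g = OfNat.ofNat n :=
  cs_natCast g n

theorem cs_neg (hg : constantCoeff g = 0) (f : R⟦X⟧) : cs (-f) g = -cs f g := by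
  rw [← zero_sub, cs_sub hg, cs_zero, zero_sub]

theorem cs_smul (hg : constantCoeff g = 0) (r : R) (f : R⟦X⟧) : cs (C r * f) g = C r * cs f g := by
  rw [cs_mul hg, cs_C]

theorem cs_self_X (f : R⟦X⟧) : cs f X = f := X_subst f

theorem coeff_pow_eq_zero (hg : constantCoeff g = 0) {d e : ℕ} (h : e < d) : coeff e (g ^ d) = 0 := by
  obtain ⟨b, rfl⟩ := (X_dvd_iff).2 hg
  rw [mul_pow]
  exact coeff_of_lt_order e (lt_of_lt_of_le (by exact_mod_cast h) (le_order_iff_X_pow_dvd_aux h b))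
where
  le_order_iff_X_pow_dvd_aux {d e : ℕ} (_ : e < d) (b : R⟦X⟧) :
      (d : ℕ∞) ≤ (X ^ d * b ^ d).order := by
    refine nat_le_order _ _ fun i hi => ?_
    rw [coeff_X_pow_mul', if_neg (not_le.2 hi)]

/-- the coefficients of a composition -/
theorem coeff_cs (hg : constantCoeff g = 0) (f : R⟦X⟧) (e : ℕ) :
    coeff e (cs f g) = ∑ d ∈ Finset.range (e + 1), coeff d f * coeff e (g ^ d) := by
  unfold cs
  rw [coeff_subst' (hs hg)]
  refine finsum_eq_sum_of_support_subset _ fun d hd => ?_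
  rw [Finset.coe_range, Set.mem_Iio, Nat.lt_succ_iff]
  by_contra h
  exact hd (by
    change coeff d f • coeff e (g ^ d) = 0
    rw [coeff_pow_eq_zero hg (not_le.1 h), smul_zero])

theorem constantCoeff_cs (hg : constantCoeff g = 0) (f : R⟦X⟧) :
    constantCoeff (cs f g) = constantCoeff f := by
  rw [← coeff_zero_eq_constantCoeff_apply, coeff_cs hg]
  simp

theorem coeff_one_cs (hg : constantCoeff g = 0) (f : R⟦X⟧) :
    coeff 1 (cs f g) = coeff 1 f * coeff 1 g := by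
  rw [coeff_cs hg]
  simp [Finset.sum_range_succ, coeff_one]

/-- chain rule -/
theorem d_cs (hg : constantCoeff g = 0) (f : R⟦X⟧) :
    derivative R (cs f g) = cs (derivative R f) g * derivative R g :=
  derivative_subst (hs hg)

/-- associativity -/
theorem cs_cs {g h : R⟦X⟧} (hg : constantCoeff g = 0) (hh : constantCoeff h = 0) (f : R⟦X⟧) :
    cs (cs f g) h = cs f (cs g h) :=
  subst_comp_subst_apply (hs hg) (hs hh) f

theorem map_cs {S : Type} [CommRing S] (φ : R →+* S) (hg : constantCoeff g = 0) (f : R⟦X⟧) :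
    map φ (cs f g) = cs (map φ f) (map φ g) := by
  have hg' : constantCoeff (map φ g) = 0 := by
    rw [cc_map, hg, map_zero]
  ext e
  rw [coeff_map, coeff_cs hg, coeff_cs hg', map_sum]
  refine Finset.sum_congr rfl fun d _ => ?_
  rw [map_mul, coeff_map, ← map_pow, coeff_map]

end comp

/-! ## The series `w`, `om`, `lg` -/

section w

/-- the equation of the curve in the coordinates `T`, `W` -/
def WEq {R : Type} [CommRing R] (T W : R⟦X⟧) : Prop :=
  W = T ^ 3 + T * W - T ^ 2 * W - 2 * (T * W ^ 2) - W ^ 3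

private noncomputable def ph (y : ℤ⟦X⟧) : ℤ⟦X⟧ :=
  1 + X * y - X ^ 2 * y - 2 * (X ^ 4 * y ^ 2) - X ^ 6 * y ^ 3

private noncomputable def sq : ℕ → ℤ⟦X⟧
  | 0 => 0
  | k + 1 => ph (sq k)

private theorem ph_sub (y z : ℤ⟦X⟧) : ph y - ph z =
    X * ((y - z) * (1 - X - 2 * (X ^ 3 * (y + z)) - X ^ 5 * (y ^ 2 + y * z + z ^ 2))) := by
  unfold ph
  ring

private theorem sq_dvd (k : ℕ) : (X : ℤ⟦X⟧) ^ k ∣ sq (k + 1) - sq k := by
  induction k with
  | zero => exact ⟨_, (one_mul _).symm⟩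
  | succ k ih =>
    obtain ⟨c, hc⟩ := ih
    change X ^ (k + 1) ∣ ph (sq (k + 1)) - ph (sq k)
    rw [ph_sub, hc]
    exact ⟨c * (1 - X - 2 * (X ^ 3 * (sq (k + 1) + sq k)) -
      X ^ 5 * (sq (k + 1) ^ 2 + sq (k + 1) * sq k + sq k ^ 2)), by ring⟩

private theorem sq_coeff {n k : ℕ} (h : n < k) : coeff n (sq k) = coeff n (sq (n + 1)) := by
  obtain ⟨m, rfl⟩ : ∃ m, k = n + 1 + m := ⟨k - (n + 1), by omega⟩
  clear h
  induction m with
  | zero => rfl
  | succ m ih =>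
    rw [← ih]
    obtain ⟨c, hc⟩ := sq_dvd (n + 1 + m)
    have h1 : sq (n + 1 + (m + 1)) = sq (n + 1 + m) + X ^ (n + 1 + m) * c := by
      rw [← hc]
      ring_nf
    rw [h1, map_add, coeff_X_pow_mul', if_neg (by omega), add_zero]

/-- the series `w` -/
noncomputable def w0 : ℤ⟦X⟧ := mk fun n => coeff n (sq (n + 1))

private theorem w0_dvd (k : ℕ) : (X : ℤ⟦X⟧) ^ k ∣ w0 - sq k := by
  rw [X_pow_dvd_iff]
  intro n hn
  rw [map_sub, w0, coeff_mk, sq_coeff hn, sub_self]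

theorem w0_eq : w0 = 1 + X * w0 - X ^ 2 * w0 - 2 * (X ^ 4 * w0 ^ 2) - X ^ 6 * w0 ^ 3 := by
  have h1 : ∀ k : ℕ, (X : ℤ⟦X⟧) ^ k ∣ w0 - ph w0 := by
    intro k
    have h2 : (X : ℤ⟦X⟧) ^ k ∣ w0 - sq (k + 1) := (pow_dvd_pow X (Nat.le_succ k)).trans (w0_dvd (k + 1))
    have h3 : (X : ℤ⟦X⟧) ^ k ∣ ph w0 - ph (sq k) := by
      obtain ⟨c, hc⟩ := w0_dvd k
      rw [ph_sub, hc]
      exact ⟨X * (c * (1 - X - 2 * (X ^ 3 * (w0 + sq k)) -
        X ^ 5 * (w0 ^ 2 + w0 * sq k + sq k ^ 2))), by ring⟩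
    have h4 : w0 - ph w0 = (w0 - sq (k + 1)) - (ph w0 - ph (sq k)) := by
      change w0 - ph w0 = (w0 - ph (sq k)) - (ph w0 - ph (sq k))
      ring
    rw [h4]
    exact dvd_sub h2 h3
  have h5 : w0 - ph w0 = 0 := by
    ext n
    have h6 := (X_pow_dvd_iff).1 (h1 (n + 1)) n (Nat.lt_succ_self n)
    rw [h6, map_zero]
  exact sub_eq_zero.1 h5

theorem w0_const : constantCoeff w0 = 1 := by
  have h := congrArg constantCoeff w0_eq
  simpa using h

/-- `P = 1 - X + X² + 4 X⁴ w + 3 X⁶ w²` -/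
noncomputable def P0 : ℤ⟦X⟧ := 1 - X + X ^ 2 + 4 * (X ^ 4 * w0) + 3 * (X ^ 6 * w0 ^ 2)

theorem P0_const : constantCoeff P0 = 1 := by
  simp [P0]

/-- the invariant differential `om = 1 / P` -/
noncomputable def om0 : ℤ⟦X⟧ := invOfUnit P0 1

theorem P0_om0 : P0 * om0 = 1 := mul_invOfUnit P0 1 (by rw [P0_const, Units.val_one])

variable (R : Type) [CommRing R]

/-- `w` over `R` -/
noncomputable def w : R⟦X⟧ := map (Int.castRingHom R) w0

/-- `P` over `R` -/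
noncomputable def P : R⟦X⟧ := map (Int.castRingHom R) P0

/-- `om` over `R` -/
noncomputable def om : R⟦X⟧ := map (Int.castRingHom R) om0

theorem w_eq : w R = 1 + X * w R - X ^ 2 * w R - 2 * (X ^ 4 * w R ^ 2) - X ^ 6 * w R ^ 3 := by
  have h := congrArg (map (Int.castRingHom R)) w0_eq
  simpa only [w, map_sub, map_add, map_mul, map_pow, map_one, map_X, map_ofNat] using h

theorem w_const : constantCoeff (w R) = 1 := by
  rw [w, cc_map, w0_const, map_one]

theorem P_eq : P R = 1 - X + X ^ 2 + 4 * (X ^ 4 * w R) + 3 * (X ^ 6 * w R ^ 2) := by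
  simp only [P, P0, w, map_sub, map_add, map_mul, map_pow, map_one, map_X, map_ofNat]

theorem P_const : constantCoeff (P R) = 1 := by
  rw [P, cc_map, P0_const, map_one]

theorem P_om : P R * om R = 1 := by
  rw [P, om, ← map_mul, P0_om0, map_one]

theorem om_const : constantCoeff (om R) = 1 := by
  have h := congrArg constantCoeff (P_om R)
  rwa [map_mul, P_const, one_mul, map_one] at h

variable {R} in
theorem map_w {S : Type} [CommRing S] (φ : R →+* S) : map φ (w R) = w S := by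
  ext n
  simp [w]

variable {R} in
theorem map_om {S : Type} [CommRing S] (φ : R →+* S) : map φ (om R) = om S := by
  ext n
  simp [om]

end w

section lg

variable (L : Type) [Field L]

/-- the logarithm `∑ c_m X^m / m` of the curve, `c_m` = coefficient of `X^(m-1)` in `om` -/
noncomputable def lg : L⟦X⟧ := mk fun m => coeff (m - 1) (om L) / m

theorem lg_const : constantCoeff (lg L) = 0 := by
  rw [← coeff_zero_eq_constantCoeff_apply, lg, coeff_mk, Nat.cast_zero, div_zero]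

theorem coeff_one_lg : coeff 1 (lg L) = 1 := by
  rw [lg, coeff_mk, Nat.cast_one, div_one, Nat.sub_self, coeff_zero_eq_constantCoeff_apply,
    om_const]

theorem d_lg [CharZero L] : derivative L (lg L) = om L := by
  ext n
  rw [coeff_derivative, lg, coeff_mk, Nat.add_sub_cancel]
  have h : ((n : L) + 1) ≠ 0 := by exact_mod_cast Nat.succ_ne_zero n
  push_cast
  field_simp

theorem coeff_one_lg_unit : IsUnit (coeff 1 (lg L)) := by
  rw [coeff_one_lg]
  exact isUnit_one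

/-- the compositional inverse of `lg` -/
noncomputable def ex : L⟦X⟧ := substInvOfIsUnit (lg L) (coeff_one_lg_unit L)

theorem ex_const : constantCoeff (ex L) = 0 := constantCoeff_substInvOfIsUnit _ _

theorem lg_ex : cs (lg L) (ex L) = X := subst_substInvOfIsUnit_right (lg L) (lg_const L) _

theorem ex_lg : cs (ex L) (lg L) = X := subst_substInvOfIsUnit_left (lg L) (lg_const L) _

variable {L}

/-- `T(u)`: the series with `lg(T(u)) = u` -/
noncomputable def Tof (u : L⟦X⟧) : L⟦X⟧ := cs (ex L) u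

theorem Tof_const {u : L⟦X⟧} (hu : constantCoeff u = 0) : constantCoeff (Tof u) = 0 := by
  rw [Tof, constantCoeff_cs hu, ex_const]

theorem lg_Tof {u : L⟦X⟧} (hu : constantCoeff u = 0) : cs (lg L) (Tof u) = u := by
  rw [Tof, ← cs_cs (ex_const L) hu, lg_ex, cs_X hu]

theorem Tof_lg {T : L⟦X⟧} (hT : constantCoeff T = 0) : Tof (cs (lg L) T) = T := by
  rw [Tof, ← cs_cs (lg_const L) hT, ex_lg, cs_X hT]

/-- a series `T` with `lg(T) = u` is `T(u)` -/
theorem eq_Tof {T u : L⟦X⟧} (hT : constantCoeff T = 0) (h : cs (lg L) T = u) : T = Tof u := by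
  rw [← h, Tof_lg hT]

theorem coeff_one_Tof {u : L⟦X⟧} (hu : constantCoeff u = 0) : coeff 1 (Tof u) = coeff 1 u := by
  have h := congrArg (coeff 1) (lg_Tof hu)
  rwa [coeff_one_cs (Tof_const hu), coeff_one_lg, one_mul] at h

theorem map_lg {L' : Type} [Field L'] (φ : L →+* L') : map φ (lg L) = lg L' := by
  ext n
  rw [coeff_map, lg, lg, coeff_mk, coeff_mk, map_div₀, map_natCast, ← coeff_map, map_om]

theorem map_Tof {L' : Type} [Field L'] (φ : L →+* L') {u : L⟦X⟧} (hu : constantCoeff u = 0) :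
    map φ (Tof u) = Tof (map φ u) := by
  refine eq_Tof ?_ ?_
  · rw [cc_map, Tof_const hu, map_zero]
  · rw [← map_lg φ, ← map_cs φ (Tof_const hu), lg_Tof hu]

end lg

/-! ## Integral series -/

section int

variable {L : Type} [Field L]

/-- all coefficients are in `O` -/
def In (O : Subring L) (f : L⟦X⟧) : Prop := ∀ n, coeff n f ∈ O

/-- all coefficients are in `c O` -/
def InM (O : Subring L) (c : L) (f : L⟦X⟧) : Prop := ∀ n, ∃ a ∈ O, coeff n f = c * a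

/-- the assumptions on the coefficient ring: `O` is a subring of `L`, `pi (1 - pi) = 2`, and
`1 - pi` and the odd integers are invertible in `O` -/
structure OK (O : Subring L) (pi : L) : Prop where
  pi_mem : pi ∈ O
  two : pi * (1 - pi) = 2
  inv : (1 - pi)⁻¹ ∈ O
  odd : ∀ n : ℕ, Odd n → (n : L)⁻¹ ∈ O

end int

/-! ## Multiplication by `pi` -/

section mult

variable {L : Type} [Field L] (pi : L)

/-- `1 - pi X⁴ w²` -/
noncomputable def u1 : L⟦X⟧ := 1 - C pi * (X ^ 4 * w L ^ 2)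

/-- `pi² - (1 - pi) X² w` -/
noncomputable def v1 : L⟦X⟧ := C pi ^ 2 - (1 - C pi) * (X ^ 2 * w L)

/-- `pi - (1 - pi)² a + pi² a²`, `a = X² w` -/
noncomputable def rr : L⟦X⟧ := C pi - (1 - C pi) ^ 2 * (X ^ 2 * w L) + C pi ^ 2 * (X ^ 2 * w L) ^ 2

/-- `(1 - pi) - pi a - pi a² - a³`, `a = X² w` -/
noncomputable def ss : L⟦X⟧ :=
  (1 - C pi) - C pi * (X ^ 2 * w L) - C pi * (X ^ 2 * w L) ^ 2 - (X ^ 2 * w L) ^ 3

/-- `R1 = rr + X ss` -/
noncomputable def R1 : L⟦X⟧ := rr pi + X * ss pi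

/-- `u1³ - a u1² v1 - 2 a² u1 v1² - a³ v1³`, `a = X² w`; the constant coefficient is `1` -/
noncomputable def u2 : L⟦X⟧ := u1 pi ^ 3 - (X ^ 2 * w L) * u1 pi ^ 2 * v1 pi -
  2 * (X ^ 2 * w L) ^ 2 * u1 pi * v1 pi ^ 2 - (X ^ 2 * w L) ^ 3 * v1 pi ^ 3

/-- the parameter `T' = -x'/y'` of the multiple by `pi` of the point with the parameter `X` -/
noncomputable def FF : L⟦X⟧ := X * w L * u1 pi * R1 pi * (u2 pi)⁻¹

/-- `W' = -1/y'` -/
noncomputable def GG : L⟦X⟧ := X ^ 3 * v1 pi * R1 pi * w L ^ 2 * (u2 pi)⁻¹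

/-- `kap = 1 - a - 2 a² - a³`, `a = X² w` -/
noncomputable def kap (L : Type) [Field L] : L⟦X⟧ :=
  1 - X ^ 2 * w L - 2 * (X ^ 2 * w L) ^ 2 - (X ^ 2 * w L) ^ 3

theorem kap_eq (L : Type) [Field L] : kap L = w L * (1 - X) := by
  unfold kap
  linear_combination (-1 : L⟦X⟧) * w_eq L

theorem u2_const : constantCoeff (u2 pi) = 1 := by
  simp [u2, u1, v1]

theorem u2_inv : u2 pi * (u2 pi)⁻¹ = 1 := PowerSeries.mul_inv_cancel _ (by
  rw [u2_const]
  exact one_ne_zero)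

theorem FF_const : constantCoeff (FF pi) = 0 := by
  simp [FF]

theorem GG_const : constantCoeff (GG pi) = 0 := by
  simp [GG]

theorem FF_u2 : FF pi * u2 pi = X * w L * u1 pi * R1 pi := by
  unfold FF
  linear_combination (X * w L * u1 pi * R1 pi) * u2_inv pi

theorem GG_u2 : GG pi * u2 pi = X ^ 3 * v1 pi * R1 pi * w L ^ 2 := by
  unfold GG
  linear_combination (X ^ 3 * v1 pi * R1 pi * w L ^ 2) * u2_inv pi

variable {pi} in
theorem C_two (h : pi * (1 - pi) = 2) : C pi * (1 - C pi) = (2 : L⟦X⟧) := by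
  rw [← map_one (C (R := L)), ← map_sub, ← map_mul, h, map_ofNat]

/-- `2 ss + u1 v1 = - rr` -/
theorem ss_rr (h : pi * (1 - pi) = 2) : 2 * ss pi + u1 pi * v1 pi = -rr pi := by
  unfold ss u1 v1 rr
  linear_combination (-1 + (X ^ 2 * w L) + C pi * (X ^ 2 * w L) ^ 2 +
    (X ^ 2 * w L) ^ 3) * C_two h

/-- `v1 u2 = w R1² + X w u1 v1 R1` -/
theorem v1_u2 (h : pi * (1 - pi) = 2) :
    v1 pi * u2 pi = w L * R1 pi ^ 2 + X * w L * u1 pi * v1 pi * R1 pi := by
  have h1 := C_two (L := L) h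
  have h2 := kap_eq L
  have h3 := ss_rr pi h
  have h4 : rr pi ^ 2 * kap L - (X ^ 2 * w L) * ss pi * (rr pi + ss pi) = v1 pi * u2 pi := by
    unfold kap u2 u1 v1 rr ss
    linear_combination ((X ^ 2 * w L) ^ 1 * C pi ^ 1 - (X ^ 2 * w L) ^ 1 * C pi ^ 2 - (X ^ 2 * w L) ^ 2 + (X ^ 2
      * w L) ^ 2 * C pi ^ 1 + (X ^ 2 * w L) ^ 2 * C pi ^ 2 - 2 * (X ^ 2 * w L) ^ 2 * C pi ^ 3
      - 2 * (X ^ 2 * w L) ^ 2 * C pi ^ 4 - 2 * (X ^ 2 * w L) ^ 3 * C pi ^ 1 + 6 * (X ^ 2 * w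
      L) ^ 3 * C pi ^ 2 - (X ^ 2 * w L) ^ 3 * C pi ^ 3 + (X ^ 2 * w L) ^ 3 * C pi ^ 4 - (X ^ 2
      * w L) ^ 3 * C pi ^ 5 - (X ^ 2 * w L) ^ 3 * C pi ^ 6 - 4 * (X ^ 2 * w L) ^ 4 * C pi ^ 1
      + 2 * (X ^ 2 * w L) ^ 4 * C pi ^ 2 + 6 * (X ^ 2 * w L) ^ 4 * C pi ^ 3 + 2 * (X ^ 2 * w
      L) ^ 4 * C pi ^ 4 - 2 * (X ^ 2 * w L) ^ 4 * C pi ^ 5 + 2 * (X ^ 2 * w L) ^ 5 - 3 * (X ^
      2 * w L) ^ 5 * C pi ^ 1 - (X ^ 2 * w L) ^ 5 * C pi ^ 2 + 5 * (X ^ 2 * w L) ^ 5 * C pi ^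
      3 - (X ^ 2 * w L) ^ 5 * C pi ^ 4 + (X ^ 2 * w L) ^ 6 * C pi ^ 1 + (X ^ 2 * w L) ^ 6 * C
      pi ^ 2 - (X ^ 2 * w L) ^ 6 * C pi ^ 3 + (X ^ 2 * w L) ^ 7 * C pi ^ 1) * h1
  unfold R1
  linear_combination rr pi ^ 2 * h2 - h4 - w L * X * (rr pi + X * ss pi) * h3

end mult

end DI.F4
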