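import Pool.Agent.Lib.DI.F4.Spec

/-!
# Theorem DI, F4: half sums (`S_Half`)
-/

set_option autoImplicit false

namespace DI.F4

open PowerSeries

private def Half_pos (v : ℤ × ℤ) : Prop := 0 < v.1 ∨ (v.1 = 0 ∧ 0 < v.2)

theorem tHalf : S_Half := by
  classical
  intro L _ _ O s a h0 hs ha hO
  have h1 : ∑ v ∈ s with ¬ Half_pos v, a v = ∑ v ∈ s with Half_pos v, a v := by
    refine Finset.sum_bij' (fun v _ => -v) (fun v _ => -v) ?_ ?_ ?_ ?_ ?_
    · intro v hv
      rw [Finset.mem_filter] at hv ⊢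
      refine ⟨hs v hv.1, ?_⟩
      have hne : v ≠ (0, 0) := fun h => h0 (h ▸ hv.1)
      obtain ⟨x, y⟩ := v
      have h2 := hv.2
      unfold Half_pos at h2 ⊢
      simp only [ne_eq, Prod.mk.injEq, Prod.neg_mk] at hne h2 ⊢
      omega
    · intro v hv
      rw [Finset.mem_filter] at hv ⊢
      refine ⟨hs v hv.1, ?_⟩
      obtain ⟨x, y⟩ := v
      have h2 := hv.2
      unfold Half_pos at h2 ⊢
      simp only [Prod.neg_mk] at h2 ⊢
      omega
    · intro v _
      exact neg_neg v
    · intro v _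
      exact neg_neg v
    · intro v hv
      exact (ha v (Finset.mem_filter.mp hv).1).symm
  have h2 := Finset.sum_filter_add_sum_filter_not s Half_pos a
  rw [h1] at h2
  rw [← h2, ← two_mul, mul_div_cancel_left₀ _ (two_ne_zero' L)]
  exact O.sum_mem fun v hv => hO v (Finset.mem_filter.mp hv).1

end DI.F4
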