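import Pool.Agent.Lib.DI.F4.Spec

/-!
# Theorem DI, F4: normalization of bounded series (`S_NormQ`)
-/

set_option autoImplicit false

namespace DI.F4

open PowerSeries

theorem tNormQ : S_NormQ := by
  classical
  intro Om _ V S ϖ hU Q hQ hS hV
  have hϖ0 : ϖ ≠ 0 := by
    rintro rfl
    exact hU.inv (by rw [inv_zero]; exact V.zero_mem)
  -- every nonzero coefficient has an exponent
  have hex : ∀ n, coeff n Q ≠ 0 → ∃ e : ℕ, coeff n Q * (ϖ ^ e)⁻¹ ∈ V ∧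
      (coeff n Q * (ϖ ^ e)⁻¹)⁻¹ ∈ V := by
    intro n hn
    obtain ⟨k, hk1, hk2⟩ := hU.rep (coeff n Q) (hS n) hn
    rcases lt_or_ge 0 k with hk | hk
    · exfalso
      obtain ⟨j, rfl⟩ : ∃ j : ℕ, k = (j : ℤ) + 1 := ⟨(k - 1).toNat, by omega⟩
      apply hU.inv
      have h1 : coeff n Q * (coeff n Q * ϖ ^ ((j : ℤ) + 1))⁻¹ * ϖ ^ j = ϖ⁻¹ := by
        rw [zpow_add_one₀ hϖ0, zpow_natCast]
        field_simp
      rw [← h1]
      exact V.mul_mem _ _ (V.mul_mem _ _ (hV n) hk2) (pow_mem hU.mem j)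
    · obtain ⟨j, rfl⟩ : ∃ j : ℕ, k = -(j : ℤ) := ⟨(-k).toNat, by omega⟩
      rw [zpow_neg, zpow_natCast] at hk1 hk2
      exact ⟨j, hk1, hk2⟩
  have hne : ∃ e : ℕ, ∃ n, coeff n Q ≠ 0 ∧ coeff n Q * (ϖ ^ e)⁻¹ ∈ V ∧
      (coeff n Q * (ϖ ^ e)⁻¹)⁻¹ ∈ V := by
    obtain ⟨n, hn⟩ : ∃ n, coeff n Q ≠ 0 := by
      by_contra h
      push Not at h
      exact hQ (PowerSeries.ext fun n => by rw [h n, map_zero])
    obtain ⟨e, he⟩ := hex n hn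
    exact ⟨e, n, hn, he⟩
  obtain ⟨n, hn, h1, h2⟩ := Nat.find_spec hne
  refine ⟨(ϖ ^ Nat.find hne)⁻¹, inv_ne_zero (pow_ne_zero _ hϖ0), ?_, n, ?_, ?_⟩
  · intro m
    by_cases hm : coeff m Q = 0
    · rw [hm, mul_zero]
      exact V.zero_mem
    · obtain ⟨e, he1, he2⟩ := hex m hm
      have hle : Nat.find hne ≤ e := Nat.find_min' hne ⟨m, hm, he1, he2⟩
      obtain ⟨d, hd⟩ := Nat.exists_eq_add_of_le hle
      have h3 : (ϖ ^ Nat.find hne)⁻¹ * coeff m Q = coeff m Q * (ϖ ^ e)⁻¹ * ϖ ^ d := by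
        have hp1 : ϖ ^ Nat.find hne ≠ 0 := pow_ne_zero _ hϖ0
        have hp2 : ϖ ^ d ≠ 0 := pow_ne_zero _ hϖ0
        have h4 : ϖ ^ e = ϖ ^ Nat.find hne * ϖ ^ d := by rw [← pow_add, ← hd]
        rw [h4]
        field_simp
      rw [h3]
      exact V.mul_mem _ _ he1 (pow_mem hU.mem d)
  · exact mul_ne_zero (inv_ne_zero (pow_ne_zero _ hϖ0)) hn
  · rw [mul_comm]
    exact h2

end DI.F4
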