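import Pool.Agent.Lib.DI.F4.Spec

/-!
# Theorem DI, part F4: the solution of the curve equation
-/

set_option autoImplicit false

namespace DI.F4

open PowerSeries

theorem tWSol : S_WSol := by
  intro R _ T hT
  refine ⟨?_, fun Y Z hY hZ h1 h2 => ?_⟩
  · have h := congrArg (fun f => cs f T) (w_eq R)
    have h3 : cs (w R) T = 1 + T * cs (w R) T - T ^ 2 * cs (w R) T -
        2 * (T ^ 4 * cs (w R) T ^ 2) - T ^ 6 * cs (w R) T ^ 3 := by
      refine h.trans ?_
      simp only [cs_sub hT, cs_add hT, cs_mul hT, cs_pow hT, cs_X hT, cs_one]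
      rw [show cs (2 : R⟦X⟧) T = 2 from cs_ofNat T 2]
    unfold WEq
    linear_combination T ^ 3 * h3
  · have h3 : (Y - Z) * (1 - T + T ^ 2 + 2 * T * (Y + Z) + Y ^ 2 + Y * Z + Z ^ 2) = 0 := by
      unfold WEq at h1 h2
      linear_combination h1 - h2
    have h4 : IsUnit (1 - T + T ^ 2 + 2 * T * (Y + Z) + Y ^ 2 + Y * Z + Z ^ 2) := by
      rw [isUnit_iff_constantCoeff]
      simp [hT, hY, hZ]
    exact sub_eq_zero.1 ((h4.mul_left_eq_zero).1 h3)

end DI.F4
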